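import Pool.Agent.L0h11.MX.Eq

/-!
# Equal CM fields, orders with small common part
-/

set_option autoImplicit false

namespace Pool.Agent.L0h11.MX

open Finset Pool.Agent.L0h15.PM MeasureTheory Filter

variable {F : Type} [Field F]

/-- Facts of class field theory on the orders of a CM field and their ring class fields. -/
structure RingClass (T : CMTheory F) where
  /-- inclusion of orders of the same CM field -/
  Le : T.Order → T.Order → Prop
  le_refl : ∀ o, Le o o
  le_K : ∀ {o o'}, Le o o' → T.K o = T.K o'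
  /-- the ring class field of a larger order is smaller -/
  le_art : ∀ {o o'} σ, Le o o' → σ ∈ T.K o → T.art o σ = 0 → T.art o' σ = 0
  /-- the order `o + o'` generated by two orders of the same CM field (for orders of conductors
  `f` and `f'` the order of conductor `gcd (f, f')`) -/
  sum : T.Order → T.Order → T.Order
  sum_K : ∀ o o', T.K o = T.K o' → T.K (sum o o') = T.K o
  /-- the ring class fields of `o` and `o'` are linearly disjoint over the ring class field of
  `o + o'`: an element which is trivial on the latter can be changed to be trivial on the ring class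
  field of `o'` without changing its action on the ring class field of `o` -/
  glue : ∀ o o', T.K o = T.K o' → ∀ σ ∈ T.K o, T.art (sum o o') σ = 0 →
    ∃ τ ∈ T.K o, T.art o τ = T.art o σ ∧ T.art o' τ = 0

/-- Curves for which the theorem of Duke is known for the orbits of all subgroups of index at most
`disc ^ η` of the class groups, with some `η > 0` (Harcos-Michel, `η = 1 / 2827` over the rationals;
Michel-Venkatesh), and the bound of genus theory for the torsion of the class groups. -/
structure DukeSubgroups (T : CMTheory F) where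
  /-- the curves -/
  IsCurve : T.Variety → Prop
  /-- the norm of the relative discriminant -/
  disc : T.Order → ℕ
  finite_disc : ∀ B : ℕ, {o | disc o ≤ B}.Finite
  /-- the exponent -/
  η : ℝ
  η_pos : 0 < η
  torsion : ∀ (s : ℕ) (ε : ℝ), 0 < ε → ∃ C : ℝ, ∀ o,
    ((Set.ncard {a : T.Pic o | 2 ^ s • a = 0} : ℕ) : ℝ) ≤ C * (disc o : ℝ) ^ ε
  equi : ∀ C, IsCurve C → ∀ (f : C(T.X C, ℝ)) (ε : ℝ), 0 < ε → ∃ B : ℕ, ∀ o, B ≤ disc o →
    ∀ U : AddSubgroup (T.Pic o),
      (Fintype.card (T.Pic o) : ℝ) ≤ (disc o : ℝ) ^ η * (Set.ncard (U : Set (T.Pic o)) : ℕ) →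
      ∀ x ∈ T.pts C o, |(∑ᶠ a ∈ U, f (T.pt C (T.act C o a x))) / (Set.ncard (U : Set (T.Pic o)) : ℕ) -
        ∫ z, f z ∂(T.μ C)| < ε

variable {T : CMTheory F} {r : ℕ} {c : Fin r → T.Variety}

/-- the elements of a class group which are given by Galois elements that are trivial on the ring class
fields of the other orders of the same CM field -/
def Free (o : Fin r → T.Order) (i : Fin r) (a : T.Pic (o i)) : Prop :=
  ∃ σ ∈ T.K (o i), T.art (o i) σ = a ∧ ∀ j, j ≠ i → T.K (o j) = T.K (o i) → T.art (o j) σ = 0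

theorem step (o : Fin r → T.Order) (i : Fin r) (a : T.Pic (o i)) (ha : Free o i a)
    (s : Finset (Fin r)) (hs : i ∉ s) : ∃ σ : Gal F, (∀ k, σ ∈ T.K (o k)) ∧
      T.art (o i) σ = 2 ^ (s.card + 1) • a ∧
      (∀ j, j ≠ i → T.K (o j) = T.K (o i) → T.art (o j) σ = 0) ∧ ∀ j ∈ s, T.art (o j) σ = 0 := by
  classical
  induction s using Finset.induction_on with
  | empty =>
    obtain ⟨σ, hσ, rfl, h⟩ := ha
    refine ⟨σ * σ, fun k => Subgroup.mul_self_mem_of_index_two (T.index (o k)) σ, ?_, ?_, ?_⟩
    · rw [T.art_mul (o i) σ σ hσ hσ, Finset.card_empty, zero_add, pow_one, two_nsmul]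
    · intro j hj hK
      have hσ' : σ ∈ T.K (o j) := by
        rw [hK]
        exact hσ
      rw [T.art_mul (o j) σ σ hσ' hσ', h j hj hK, add_zero]
    · intro j hj
      exact absurd hj (Finset.notMem_empty j)
  | insert k s hk ih =>
    rw [Finset.mem_insert, not_or] at hs
    obtain ⟨σ, h1, h2, h3, h4⟩ := ih hs.2
    by_cases hK : T.K (o k) = T.K (o i)
    · refine ⟨σ * σ, fun l => (T.K (o l)).mul_mem (h1 l) (h1 l), ?_, ?_, ?_⟩
      · rw [T.art_mul (o i) _ _ (h1 i) (h1 i), h2, Finset.card_insert_of_notMem hk,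
          pow_succ _ (s.card + 1), mul_comm, mul_nsmul', two_nsmul]
      · intro j hj hjK
        rw [T.art_mul (o j) _ _ (h1 j) (h1 j), h3 j hj hjK, add_zero]
      · intro l hl
        rw [T.art_mul (o l) _ _ (h1 l) (h1 l)]
        rcases Finset.mem_insert.1 hl with rfl | hl
        · rw [h3 l (fun h => hs.1 h.symm) hK, add_zero]
        · rw [h4 l hl, add_zero]
    · obtain ⟨τ, hτ1, hτ2⟩ := T.exists_sep (o := o i) (o' := o k) (fun h => hK h.symm)
      refine ⟨σ * (τ * σ * τ⁻¹), fun l => (T.K (o l)).mul_mem (h1 l) (T.conj_mem (o l) (h1 l) τ),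
        ?_, ?_, ?_⟩
      · rw [T.art_mul (o i) _ _ (h1 i) (T.conj_mem (o i) (h1 i) τ), T.art_conj_mem (o i) (h1 i) hτ1,
          h2, Finset.card_insert_of_notMem hk, pow_succ _ (s.card + 1), mul_comm, mul_nsmul',
          two_nsmul]
      · intro j hj hjK
        rw [T.art_mul (o j) _ _ (h1 j) (T.conj_mem (o j) (h1 j) τ), h3 j hj hjK,
          T.art_conj_zero (o j) (h1 j) (h3 j hj hjK), add_zero]
      · intro l hl
        rw [T.art_mul (o l) _ _ (h1 l) (T.conj_mem (o l) (h1 l) τ)]
        rcases Finset.mem_insert.1 hl with rfl | hl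
        · rw [T.art_conj (o l) σ τ (h1 l) hτ2, add_neg_cancel]
        · rw [h4 l hl, T.art_conj_zero (o l) (h1 l) (h4 l hl), add_zero]

/-- the Galois group contains the product of the groups `2 ^ r` times free elements -/
theorem free_mem (o : Fin r → T.Order) (a : ∀ i, T.Pic (o i)) (ha : ∀ i, Free o i (a i)) :
    (fun i => 2 ^ r • a i) ∈ HH T o := by
  classical
  have key : ∀ t : Finset (Fin r), ∃ σ : Gal F, (∀ k, σ ∈ T.K (o k)) ∧
      (∀ i ∈ t, T.art (o i) σ = 2 ^ r • a i) ∧ ∀ i ∉ t, T.art (o i) σ = 0 := by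
    intro t
    induction t using Finset.induction_on with
    | empty =>
      exact ⟨1, fun k => (T.K (o k)).one_mem, fun i hi => absurd hi (Finset.notMem_empty i),
        fun i _ => T.art_one (o i)⟩
    | insert i t hi ih =>
      obtain ⟨σ, h1, h2, h3⟩ := ih
      obtain ⟨τ, h4, h5, -, h6⟩ := step o i (a i) (ha i) (Finset.univ.erase i) (Finset.notMem_erase i _)
      have hcard : (Finset.univ.erase i).card + 1 = r := by
        rw [Finset.card_erase_of_mem (Finset.mem_univ i), Finset.card_univ, Fintype.card_fin]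
        have := i.pos
        omega
      rw [hcard] at h5
      refine ⟨σ * τ, fun k => (T.K (o k)).mul_mem (h1 k) (h4 k), ?_, ?_⟩
      · intro k hk
        rw [T.art_mul (o k) _ _ (h1 k) (h4 k)]
        by_cases hki : k = i
        · subst hki
          rw [h3 k hi, h5, zero_add]
        · rw [h6 k (Finset.mem_erase.2 ⟨hki, Finset.mem_univ k⟩), add_zero]
          exact h2 k ((Finset.mem_insert.1 hk).resolve_left hki)
      · intro k hk
        rw [Finset.mem_insert, not_or] at hk
        rw [T.art_mul (o k) _ _ (h1 k) (h4 k), h3 k hk.2,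
          h6 k (Finset.mem_erase.2 ⟨hk.1, Finset.mem_univ k⟩), add_zero]
  obtain ⟨σ, h1, h2, -⟩ := key Finset.univ
  exact mem_HH.2 ⟨σ, h1, fun i => h2 i (Finset.mem_univ i)⟩

lemma free_zero (o : Fin r → T.Order) (i : Fin r) : Free o i 0 :=
  ⟨1, (T.K (o i)).one_mem, T.art_one _, fun _ _ _ => T.art_one _⟩

/-- the group of the free elements -/
def freeGroup (o : Fin r → T.Order) (i : Fin r) : AddSubgroup (T.Pic (o i)) where
  carrier := {a | Free o i a}
  zero_mem' := free_zero o i
  add_mem' := by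
    rintro a b ⟨σ, hσ, rfl, h1⟩ ⟨τ, hτ, rfl, h2⟩
    refine ⟨σ * τ, (T.K (o i)).mul_mem hσ hτ, T.art_mul _ _ _ hσ hτ, fun j hj hK => ?_⟩
    rw [T.art_mul (o j) _ _ (by rw [hK]; exact hσ) (by rw [hK]; exact hτ), h1 j hj hK, h2 j hj hK,
      add_zero]
  neg_mem' := by
    rintro a ⟨σ, hσ, rfl, h1⟩
    refine ⟨σ⁻¹, (T.K (o i)).inv_mem hσ, T.art_inv _ hσ, fun j hj hK => ?_⟩
    rw [T.art_inv (o j) (by rw [hK]; exact hσ), h1 j hj hK, neg_zero]

/-- The intersection of the ring class field of `o i` and of the compositum of the ring class fields of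
the other orders of the same CM field has degree at most `κ` over the CM field: this degree is the
index in the class group of the group of the elements which are given by Galois elements that are
trivial on the ring class fields of the other orders of the same CM field. -/
def SmallIntersection (o : Fin r → T.Order) (i : Fin r) (κ : ℝ) : Prop :=
  (Fintype.card (T.Pic (o i)) : ℝ) ≤ κ * (Set.ncard {a : T.Pic (o i) | Free o i a} : ℕ)

lemma SmallIntersection.mono {o : Fin r → T.Order} {i : Fin r} {κ κ' : ℝ}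
    (h : SmallIntersection o i κ) (hκ : κ ≤ κ') : SmallIntersection o i κ' :=
  le_trans (b := κ * (Set.ncard {a : T.Pic (o i) | Free o i a} : ℕ)) h
    (mul_le_mul_of_nonneg_right hκ (Nat.cast_nonneg _))

/-- The common part of the order `o i` and the other orders of the same CM field is small: there is no
other order of the same CM field, or there is an order `q` contained in all the other ones (for example
their intersection) such that the class number of the order `o i + q` is at most `κ`. -/
def SmallCommonPart (R : RingClass T) (o : Fin r → T.Order) (i : Fin r) (κ : ℝ) : Prop :=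
  (∀ j, j ≠ i → T.K (o j) ≠ T.K (o i)) ∨
    ∃ q, T.K q = T.K (o i) ∧ (∀ j, j ≠ i → T.K (o j) = T.K (o i) → R.Le q (o j)) ∧
      (Fintype.card (T.Pic (R.sum (o i) q)) : ℝ) ≤ κ

lemma smallIntersection_of_ne (o : Fin r → T.Order) (i : Fin r) {κ : ℝ} (hκ : 1 ≤ κ)
    (h : ∀ j, j ≠ i → T.K (o j) ≠ T.K (o i)) : SmallIntersection o i κ := by
  have h1 : {a : T.Pic (o i) | Free o i a} = Set.univ := by
    refine Set.eq_univ_of_forall fun a => ?_
    obtain ⟨σ, hσ, rfl⟩ := T.art_surj (o i) a
    exact ⟨σ, hσ, rfl, fun j hj hK => absurd hK (h j hj)⟩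
  rw [SmallIntersection, h1, Set.ncard_univ, Nat.card_eq_fintype_card]
  exact le_mul_of_one_le_left (Nat.cast_nonneg _) hκ

theorem smallIntersection_of (R : RingClass T) (o : Fin r → T.Order) (i : Fin r) {κ : ℝ}
    (hκ : 1 ≤ κ) (h : SmallCommonPart R o i κ) : SmallIntersection o i κ := by
  classical
  rcases h with h | ⟨q, hqK, hq, hcard⟩
  · exact smallIntersection_of_ne o i hκ h
  · set g := R.sum (o i) q with hg
    have hgK : T.K g = T.K (o i) := R.sum_K _ _ hqK.symm
    have hN : ∀ σ ∈ T.K (o i), T.art g σ = 0 → Free o i (T.art (o i) σ) := by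
      intro σ hσ h1
      obtain ⟨τ, hτ, h2, h3⟩ := R.glue (o i) q hqK.symm σ hσ h1
      refine ⟨τ, hτ, h2, fun j hj hK => ?_⟩
      exact R.le_art τ (hq j hj hK) (by rw [hqK]; exact hτ) h3
    choose τ hτ1 hτ2 using T.art_surj (o i)
    have h3 : ∀ v : T.Pic g,
        (univ.filter fun a => T.art g (τ a) = v).card ≤
          Set.ncard {a : T.Pic (o i) | Free o i a} := by
      intro v
      rcases (univ.filter fun a => T.art g (τ a) = v).eq_empty_or_nonempty with h | ⟨b, hb⟩
      · rw [h, card_empty]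
        exact Nat.zero_le _
      · rw [mem_filter] at hb
        rw [← Set.ncard_coe_finset]
        refine Set.ncard_le_ncard_of_injOn (fun a => a - b) ?_ ?_ (Set.toFinite _)
        · intro a ha
          rw [mem_coe, mem_filter] at ha
          have ha' : τ a ∈ T.K g := by rw [hgK]; exact hτ1 a
          have hb' : τ b ∈ T.K g := by rw [hgK]; exact hτ1 b
          have h4 := hN (τ a * (τ b)⁻¹) ((T.K (o i)).mul_mem (hτ1 a) ((T.K (o i)).inv_mem (hτ1 b)))
            (by rw [T.art_mul g _ _ ha' ((T.K g).inv_mem hb'), T.art_inv _ hb', ha.2, hb.2,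
              add_neg_cancel])
          rw [T.art_mul _ _ _ (hτ1 a) ((T.K (o i)).inv_mem (hτ1 b)), T.art_inv _ (hτ1 b), hτ2, hτ2,
            ← sub_eq_add_neg] at h4
          exact h4
        · intro a _ a' _ heq
          exact sub_left_injective heq
    have h4 : Fintype.card (T.Pic (o i)) ≤
        Fintype.card (T.Pic g) * Set.ncard {a : T.Pic (o i) | Free o i a} := by
      rw [← card_univ, card_eq_sum_card_fiberwise (f := fun a => T.art g (τ a)) (t := univ)
        (fun a _ => mem_univ _)]
      refine (sum_le_sum fun v _ => h3 v).trans ?_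
      rw [sum_const, card_univ, smul_eq_mul]
    calc (Fintype.card (T.Pic (o i)) : ℝ) ≤
        Fintype.card (T.Pic g) * (Set.ncard {a : T.Pic (o i) | Free o i a} : ℕ) := by
          exact_mod_cast h4
      _ ≤ κ * (Set.ncard {a : T.Pic (o i) | Free o i a} : ℕ) :=
          mul_le_mul_of_nonneg_right hcard (Nat.cast_nonneg _)

/-- the discriminants tend to infinity -/
theorem disc_tendsto' (D : DukeSubgroups T) {x : ℕ → ∀ i, T.P (c i)} {o : ℕ → Fin r → T.Order}
    (hx : ∀ n, x n ∈ Pts T c (o n)) (hs : ∀ i p, ∀ᶠ n in atTop, x n i ≠ p) (i : Fin r) :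
    Tendsto (fun n => D.disc (o n i)) atTop atTop := by
  rw [tendsto_atTop]
  intro B
  have hfin : (⋃ o ∈ {o | D.disc o ≤ B}, T.pts (c i) o).Finite :=
    (D.finite_disc B).biUnion fun o _ => T.pts_finite (c i) o
  have h : ∀ᶠ n in atTop, ∀ p ∈ (⋃ o ∈ {o | D.disc o ≤ B}, T.pts (c i) o), x n i ≠ p :=
    (Filter.eventually_all_finite hfin).2 fun p _ => hs i p
  filter_upwards [h] with n hn
  by_contra hlt
  push Not at hlt
  exact hn (x n i) (Set.mem_biUnion (show o n i ∈ {o | D.disc o ≤ B} from hlt.le) (hx n i)) rfl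

/-- **Equal CM fields, small intersections of the ring class fields.** -/
theorem small_parts (D : DukeSubgroups T) (hc : ∀ i, D.IsCurve (c i))
    {x : ℕ → ∀ i, T.P (c i)} {o : ℕ → Fin r → T.Order} (hx : ∀ n, x n ∈ Pts T c (o n))
    (hs : ∀ i p, ∀ᶠ n in atTop, x n i ≠ p) {θ : ℝ} (hθ : θ < D.η)
    (hcond : ∀ᶠ n in atTop, ∀ i, SmallIntersection (o n) i ((D.disc (o n i) : ℝ) ^ θ)) :
    T.Equidistributed c x := by
  classical
  have hdisc := disc_tendsto' D hx hs
  set ε₀ : ℝ := D.η - θ with hε₀
  have hε₀0 : 0 < ε₀ := by linarith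
  obtain ⟨C, hC⟩ := D.torsion r (ε₀ / 2) (by positivity)
  -- the groups of free elements
  let N : ∀ n i, AddSubgroup (T.Pic (o n i)) := fun n i => freeGroup (o n) i
  have hNfree : ∀ n i, ∀ a ∈ N n i, Free (o n) i a := fun n i a ha => ha
  -- the subgroups
  let V : ∀ n i, AddSubgroup (T.Pic (o n i)) := fun n i =>
    (N n i).map (nsmulAddMonoidHom (2 ^ r) : T.Pic (o n i) →+ T.Pic (o n i))
  have hV : ∀ n i a, a ∈ V n i ↔ ∃ b ∈ N n i, 2 ^ r • b = a := fun n i a => Iff.rfl
  let U : ∀ n i, Finset (T.Pic (o n i)) := fun n i => univ.filter fun a => a ∈ V n i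
  have hUV : ∀ n i, ((U n i : Finset (T.Pic (o n i))) : Set (T.Pic (o n i))) = V n i := by
    intro n i
    ext a
    rw [mem_coe, mem_filter]
    exact and_iff_right (mem_univ _)
  refine equi_sets (U := U) (fun n i => ⟨0, mem_filter.2 ⟨mem_univ _, (V n i).zero_mem⟩⟩) ?_ ?_ hx
  · intro n a ha
    rw [Fintype.mem_piFinset] at ha
    have h1 : ∀ i, ∃ b ∈ N n i, 2 ^ r • b = a i := fun i => (hV n i _).1 (mem_filter.1 (ha i)).2
    choose b hb1 hb2 using h1
    have h2 := free_mem (o n) b fun i => hNfree n i (b i) (hb1 i)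
    rwa [show (fun i => 2 ^ r • b i) = a from funext hb2] at h2
  · intro i f ε hε
    obtain ⟨B, hB⟩ := D.equi (c i) (hc i) f ε hε
    have hlarge : ∀ᶠ n in atTop, C ≤ (D.disc (o n i) : ℝ) ^ (ε₀ / 2) := by
      have h1 : Tendsto (fun n => (D.disc (o n i) : ℝ) ^ (ε₀ / 2)) atTop atTop :=
        (tendsto_rpow_atTop (by positivity)).comp (tendsto_natCast_atTop_atTop.comp (hdisc i))
      exact h1.eventually_ge_atTop C
    filter_upwards [hcond, hlarge, (tendsto_atTop.1 (hdisc i)) B, (tendsto_atTop.1 (hdisc i)) 1]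
      with n h1 h2 h3 h4 y hy
    have hd1 : (1 : ℝ) ≤ D.disc (o n i) := by exact_mod_cast h4
    have hd0 : (0 : ℝ) < D.disc (o n i) := by linarith
    have hk : (Fintype.card (T.Pic (o n i)) : ℝ) ≤
        (D.disc (o n i) : ℝ) ^ θ * (Set.ncard (N n i : Set (T.Pic (o n i))) : ℕ) := h1 i
    -- the size of the subgroup
    have hNV : Set.ncard (N n i : Set (T.Pic (o n i))) ≤
        Set.ncard {a : T.Pic (o n i) | 2 ^ r • a = 0} * Set.ncard (V n i : Set (T.Pic (o n i))) := by
      set NF : Finset (T.Pic (o n i)) := univ.filter fun a => a ∈ N n i with hNF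
      have e1 : (N n i : Set (T.Pic (o n i))) = ↑NF := by
        ext a
        rw [mem_coe, hNF, mem_filter]
        exact (and_iff_right (mem_univ _)).symm
      have e2 : Set.ncard (N n i : Set (T.Pic (o n i))) = NF.card := by
        rw [e1, Set.ncard_coe_finset]
      have e3 : Set.ncard (V n i : Set (T.Pic (o n i))) = (U n i).card := by
        rw [← hUV, Set.ncard_coe_finset]
      rw [e2, e3, card_eq_sum_card_fiberwise (f := fun a => 2 ^ r • a) (t := U n i)]
      · refine (sum_le_sum (g := fun _ => Set.ncard {a : T.Pic (o n i) | 2 ^ r • a = 0}) fun v _ => ?_).trans ?_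
        · rcases (NF.filter fun a => 2 ^ r • a = v).eq_empty_or_nonempty with h | ⟨b, hb⟩
          · rw [h, card_empty]
            exact Nat.zero_le _
          · rw [mem_filter] at hb
            rw [← Set.ncard_coe_finset]
            refine Set.ncard_le_ncard_of_injOn (fun a => a - b) ?_ ?_ (Set.toFinite _)
            · intro a ha
              rw [mem_coe, mem_filter] at ha
              show 2 ^ r • (a - b) = 0
              rw [nsmul_sub, ha.2, hb.2, sub_self]
            · intro a _ a' _ heq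
              exact sub_left_injective heq
        · rw [sum_const, smul_eq_mul, mul_comm]
      · intro a ha
        rw [mem_coe, hNF, mem_filter] at ha
        rw [mem_coe, mem_filter]
        exact ⟨mem_univ _, (hV n i _).2 ⟨a, ha.2, rfl⟩⟩
    have hsize : (Fintype.card (T.Pic (o n i)) : ℝ) ≤
        (D.disc (o n i) : ℝ) ^ D.η * (Set.ncard (V n i : Set (T.Pic (o n i))) : ℕ) := by
      have h5 : ((Set.ncard (N n i : Set (T.Pic (o n i))) : ℕ) : ℝ) ≤
          (D.disc (o n i) : ℝ) ^ ε₀ * (Set.ncard (V n i : Set (T.Pic (o n i))) : ℕ) := by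
        calc ((Set.ncard (N n i : Set (T.Pic (o n i))) : ℕ) : ℝ) ≤
            ((Set.ncard {a : T.Pic (o n i) | 2 ^ r • a = 0} : ℕ) : ℝ) *
              (Set.ncard (V n i : Set (T.Pic (o n i))) : ℕ) := by exact_mod_cast hNV
          _ ≤ (D.disc (o n i) : ℝ) ^ ε₀ * (Set.ncard (V n i : Set (T.Pic (o n i))) : ℕ) := by
              refine mul_le_mul_of_nonneg_right ?_ (Nat.cast_nonneg _)
              refine (hC (o n i)).trans ?_
              calc C * (D.disc (o n i) : ℝ) ^ (ε₀ / 2) ≤
                  (D.disc (o n i) : ℝ) ^ (ε₀ / 2) * (D.disc (o n i) : ℝ) ^ (ε₀ / 2) :=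
                    mul_le_mul_of_nonneg_right h2 (by positivity)
                _ = (D.disc (o n i) : ℝ) ^ ε₀ := by
                    rw [← Real.rpow_add hd0]
                    congr 1
                    ring
      calc (Fintype.card (T.Pic (o n i)) : ℝ) ≤
          (D.disc (o n i) : ℝ) ^ θ * (Set.ncard (N n i : Set (T.Pic (o n i))) : ℕ) := hk
        _ ≤ (D.disc (o n i) : ℝ) ^ θ * ((D.disc (o n i) : ℝ) ^ ε₀ *
              (Set.ncard (V n i : Set (T.Pic (o n i))) : ℕ)) :=
            mul_le_mul_of_nonneg_left h5 (by positivity)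
        _ = (D.disc (o n i) : ℝ) ^ D.η * (Set.ncard (V n i : Set (T.Pic (o n i))) : ℕ) := by
            rw [← mul_assoc, ← Real.rpow_add hd0]
            congr 2
            rw [hε₀]
            ring
    have h5 := hB (o n i) h3 (V n i) hsize y hy
    have h6 : (∑ᶠ a ∈ V n i, f (T.pt (c i) (T.act (c i) (o n i) a y))) =
        ∑ a ∈ U n i, f (T.pt (c i) (T.act (c i) (o n i) a y)) := by
      rw [← finsum_mem_coe_finset, hUV]
      rfl
    have h7 : (Set.ncard (V n i : Set (T.Pic (o n i))) : ℕ) = (U n i).card := by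
      rw [← hUV, Set.ncard_coe_finset]
    rw [h6, h7] at h5
    exact h5.le

/-- **Bounded intersections.** -/
theorem bounded_parts (D : DukeSubgroups T) (hc : ∀ i, D.IsCurve (c i))
    {x : ℕ → ∀ i, T.P (c i)} {o : ℕ → Fin r → T.Order} (hx : ∀ n, x n ∈ Pts T c (o n))
    (hs : ∀ i p, ∀ᶠ n in atTop, x n i ≠ p) {κ : ℝ}
    (hcond : ∀ᶠ n in atTop, ∀ i, SmallIntersection (o n) i κ) : T.Equidistributed c x := by
  have hdisc := disc_tendsto' D hx hs
  have hη := D.η_pos
  refine small_parts D hc hx hs (θ := D.η / 2) (by linarith) ?_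
  have hlarge : ∀ᶠ n in atTop, ∀ i, κ ≤ (D.disc (o n i) : ℝ) ^ (D.η / 2) := by
    refine Filter.eventually_all.2 fun i => ?_
    have h1 : Tendsto (fun n => (D.disc (o n i) : ℝ) ^ (D.η / 2)) atTop atTop :=
      (tendsto_rpow_atTop (by positivity)).comp (tendsto_natCast_atTop_atTop.comp (hdisc i))
    exact h1.eventually_ge_atTop κ
  filter_upwards [hcond, hlarge] with n h1 h2 i
  exact (h1 i).mono (h2 i)

/-- **Orders with small common part.** -/
theorem small_orders (R : RingClass T) (D : DukeSubgroups T) (hc : ∀ i, D.IsCurve (c i))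
    {x : ℕ → ∀ i, T.P (c i)} {o : ℕ → Fin r → T.Order} (hx : ∀ n, x n ∈ Pts T c (o n))
    (hs : ∀ i p, ∀ᶠ n in atTop, x n i ≠ p) {θ : ℝ} (hθ : θ < D.η)
    (hcond : ∀ᶠ n in atTop, ∀ i, SmallCommonPart R (o n) i ((D.disc (o n i) : ℝ) ^ θ)) :
    T.Equidistributed c x := by
  have hdisc := disc_tendsto' D hx hs
  refine small_parts D hc hx hs (θ := max θ 0) (max_lt hθ D.η_pos) ?_
  have h1 : ∀ᶠ n in atTop, ∀ i, 1 ≤ D.disc (o n i) :=
    Filter.eventually_all.2 fun i => (tendsto_atTop.1 (hdisc i)) 1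
  filter_upwards [hcond, h1] with n h2 h3 i
  have h4 : (1 : ℝ) ≤ D.disc (o n i) := by exact_mod_cast h3 i
  refine smallIntersection_of R (o n) i (Real.one_le_rpow h4 (le_max_right _ _)) ?_
  rcases h2 i with h | ⟨q, h5, h6, h7⟩
  · exact Or.inl h
  · exact Or.inr ⟨q, h5, h6, h7.trans (Real.rpow_le_rpow_of_exponent_le h4 (le_max_left _ _))⟩

theorem bounded_orders (R : RingClass T) (D : DukeSubgroups T) (hc : ∀ i, D.IsCurve (c i))
    {x : ℕ → ∀ i, T.P (c i)} {o : ℕ → Fin r → T.Order} (hx : ∀ n, x n ∈ Pts T c (o n))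
    (hs : ∀ i p, ∀ᶠ n in atTop, x n i ≠ p) {κ : ℝ}
    (hcond : ∀ᶠ n in atTop, ∀ i, SmallCommonPart R (o n) i κ) : T.Equidistributed c x := by
  refine bounded_parts D hc hx hs (κ := max κ 1) ?_
  filter_upwards [hcond] with n h2 i
  refine smallIntersection_of R (o n) i (le_max_right _ _) ?_
  rcases h2 i with h | ⟨q, h5, h6, h7⟩
  · exact Or.inl h
  · exact Or.inr ⟨q, h5, h6, h7.trans (le_max_left _ _)⟩

end Pool.Agent.L0h11.MX
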