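import Mathlib

/-!
# Characters of a finite abelian group and autocorrelations
-/

set_option autoImplicit false

namespace Pool.Agent.L0h11.MX

open Finset

variable {A : Type} [AddCommGroup A] [Fintype A]

/-- the character sum -/
noncomputable def hat (ψ : AddChar A ℂ) (g : A → ℝ) : ℂ := ∑ u, ψ u * (g u : ℂ)

lemma conj_hat (ψ : AddChar A ℂ) (g : A → ℝ) :
    (starRingEnd ℂ) (hat ψ g) = ∑ v, ψ (-v) * (g v : ℂ) := by
  unfold hat
  rw [map_sum]
  refine sum_congr rfl fun v _ => ?_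
  rw [map_mul, Complex.conj_ofReal, AddChar.map_neg_eq_conj]

/-- **Parseval's formula.** -/
theorem parseval (g : A → ℝ) :
    ∑ ψ : AddChar A ℂ, ‖hat ψ g‖ ^ 2 = Fintype.card A * ∑ u, g u ^ 2 := by
  classical
  have h : ∑ ψ : AddChar A ℂ, hat ψ g * (starRingEnd ℂ) (hat ψ g) =
      ((Fintype.card A * ∑ u, g u ^ 2 : ℝ) : ℂ) := by
    have h1 : ∀ ψ : AddChar A ℂ, hat ψ g * (starRingEnd ℂ) (hat ψ g) =
        ∑ u, ∑ v, ψ (u - v) * ((g u : ℂ) * g v) := by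
      intro ψ
      rw [conj_hat, hat, sum_mul_sum]
      refine sum_congr rfl fun u _ => sum_congr rfl fun v _ => ?_
      rw [sub_eq_add_neg, AddChar.map_add_eq_mul]
      ring
    rw [sum_congr rfl fun ψ _ => h1 ψ, sum_comm]
    have h2 : ∀ u : A, ∑ ψ : AddChar A ℂ, ∑ v, ψ (u - v) * ((g u : ℂ) * g v) =
        Fintype.card A * ((g u : ℂ) ^ 2) := by
      intro u
      rw [sum_comm]
      have h3 : ∀ v : A, ∑ ψ : AddChar A ℂ, ψ (u - v) * ((g u : ℂ) * g v) =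
          if v = u then Fintype.card A * ((g u : ℂ) * g v) else 0 := by
        intro v
        rw [← sum_mul, AddChar.sum_apply_eq_ite]
        by_cases hv : v = u
        · rw [if_pos hv, if_pos (sub_eq_zero.2 hv.symm)]
        · rw [if_neg hv, if_neg (fun h => hv (sub_eq_zero.1 h).symm), zero_mul]
      rw [sum_congr rfl fun v _ => h3 v, sum_ite_eq' univ u, if_pos (mem_univ _)]
      ring
    rw [sum_congr rfl fun u _ => h2 u, ← mul_sum]
    push_cast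
    rfl
  have h2 : ∀ ψ : AddChar A ℂ, hat ψ g * (starRingEnd ℂ) (hat ψ g) = ((‖hat ψ g‖ ^ 2 : ℝ) : ℂ) := by
    intro ψ
    rw [Complex.mul_conj, Complex.normSq_eq_norm_sq]
  rw [sum_congr rfl fun ψ _ => h2 ψ, ← Complex.ofReal_sum] at h
  exact_mod_cast h

/-- the autocorrelation -/
def corr (g : A → ℝ) (u : A) : ℝ := ∑ a, g (u + a) * g a

lemma hat_corr (ψ : AddChar A ℂ) (g : A → ℝ) : hat ψ (corr g) = ((‖hat ψ g‖ ^ 2 : ℝ) : ℂ) := by
  rw [← Complex.normSq_eq_norm_sq, ← Complex.mul_conj, conj_hat]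
  unfold hat corr
  rw [sum_mul_sum, sum_comm]
  push_cast
  have h : ∀ v : A, ∑ u, ψ u * (g u : ℂ) * (ψ (-v) * (g v : ℂ)) =
      ∑ u, ψ u * ((g (u + v) : ℂ) * g v) := by
    intro v
    rw [← Equiv.sum_comp (Equiv.addRight v) fun u => ψ u * (g u : ℂ) * (ψ (-v) * (g v : ℂ))]
    refine sum_congr rfl fun u _ => ?_
    rw [Equiv.coe_addRight, AddChar.map_add_eq_mul]
    have h1 : ψ v * ψ (-v) = 1 := by
      rw [← AddChar.map_add_eq_mul, add_neg_cancel, AddChar.map_zero_eq_one]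
    calc _ = (ψ v * ψ (-v)) * (ψ u * ((g (u + v) : ℂ) * g v)) := by ring
      _ = _ := by rw [h1, one_mul]
  rw [sum_congr rfl fun v _ => h v, sum_comm]
  refine sum_congr rfl fun u _ => ?_
  rw [mul_sum]

/-- **The mean square of the autocorrelation.** -/
theorem corr_sq {g : A → ℝ} {δ M : ℝ} (hM : ∀ a, |g a| ≤ M)
    (hδ : ∀ ψ : AddChar A ℂ, ‖hat ψ g‖ ≤ δ * Fintype.card A) :
    ∑ u, corr g u ^ 2 ≤ δ ^ 2 * M ^ 2 * (Fintype.card A : ℝ) ^ 3 := by
  have hA : (0 : ℝ) < Fintype.card A := by exact_mod_cast Fintype.card_pos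
  have h1 := parseval (corr g)
  have h2 : ∀ ψ : AddChar A ℂ, ‖hat ψ (corr g)‖ ^ 2 ≤ (δ * Fintype.card A) ^ 2 * ‖hat ψ g‖ ^ 2 := by
    intro ψ
    rw [hat_corr, Complex.norm_real, Real.norm_eq_abs, abs_of_nonneg (by positivity)]
    calc (‖hat ψ g‖ ^ 2) ^ 2 = ‖hat ψ g‖ ^ 2 * ‖hat ψ g‖ ^ 2 := by ring
      _ ≤ _ := mul_le_mul_of_nonneg_right (pow_le_pow_left₀ (norm_nonneg _) (hδ ψ) 2) (by positivity)
  have h3 : ∑ ψ : AddChar A ℂ, ‖hat ψ (corr g)‖ ^ 2 ≤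
      (δ * Fintype.card A) ^ 2 * (Fintype.card A * ∑ u, g u ^ 2) := by
    rw [← parseval g, mul_sum]
    exact sum_le_sum fun ψ _ => h2 ψ
  have h4 : ∑ u, g u ^ 2 ≤ Fintype.card A * M ^ 2 := by
    calc _ ≤ ∑ _u : A, M ^ 2 := sum_le_sum fun u _ => by
          rw [← sq_abs]
          exact pow_le_pow_left₀ (abs_nonneg _) (hM u) 2
      _ = _ := by rw [sum_const, card_univ, nsmul_eq_mul]
  rw [h1] at h3
  have h5 : (Fintype.card A : ℝ) * ∑ u, corr g u ^ 2 ≤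
      Fintype.card A * (δ ^ 2 * M ^ 2 * (Fintype.card A : ℝ) ^ 3) := by
    refine h3.trans ?_
    calc (δ * Fintype.card A) ^ 2 * (Fintype.card A * ∑ u, g u ^ 2) ≤
        (δ * Fintype.card A) ^ 2 * (Fintype.card A * (Fintype.card A * M ^ 2)) :=
          mul_le_mul_of_nonneg_left (mul_le_mul_of_nonneg_left h4 hA.le) (by positivity)
      _ = _ := by ring
  exact le_of_mul_le_mul_left h5 hA

/-- **The mean of the autocorrelation.** -/
theorem corr_abs {g : A → ℝ} {δ M : ℝ} (hδ0 : 0 ≤ δ) (hM0 : 0 ≤ M) (hM : ∀ a, |g a| ≤ M)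
    (hδ : ∀ ψ : AddChar A ℂ, ‖hat ψ g‖ ≤ δ * Fintype.card A) :
    ∑ u, |corr g u| ≤ δ * M * (Fintype.card A : ℝ) ^ 2 := by
  have hA : (0 : ℝ) < Fintype.card A := by exact_mod_cast Fintype.card_pos
  have h1 := corr_sq hM hδ
  have h2 : (∑ u, |corr g u|) ^ 2 ≤ Fintype.card A * ∑ u, corr g u ^ 2 := by
    have h3 := sq_sum_le_card_mul_sum_sq (s := (univ : Finset A)) (f := fun u => |corr g u|)
    simp only [sq_abs] at h3
    rw [card_univ] at h3
    exact h3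
  refine abs_le_of_sq_le_sq' ?_ (by positivity) |>.2
  calc (∑ u, |corr g u|) ^ 2 ≤ Fintype.card A * ∑ u, corr g u ^ 2 := h2
    _ ≤ Fintype.card A * (δ ^ 2 * M ^ 2 * (Fintype.card A : ℝ) ^ 3) := mul_le_mul_of_nonneg_left h1 hA.le
    _ = _ := by ring

lemma abs_corr_le {g : A → ℝ} {M : ℝ} (hM : ∀ a, |g a| ≤ M) (u : A) :
    |corr g u| ≤ M ^ 2 * Fintype.card A := by
  unfold corr
  refine (abs_sum_le_sum_abs _ _).trans ?_
  calc _ ≤ ∑ _a : A, M ^ 2 := sum_le_sum fun a _ => by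
        rw [abs_mul, sq]
        exact mul_le_mul (hM _) (hM _) (abs_nonneg _) ((abs_nonneg _).trans (hM a))
    _ = _ := by rw [sum_const, card_univ, nsmul_eq_mul, mul_comm]

end Pool.Agent.L0h11.MX
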