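import Mathlib
import Pool.Agent.L0h11.MX.Fr

/-!
# Averages over a subgroup of a product of finite abelian groups
-/

set_option autoImplicit false

namespace Pool.Agent.L0h11.MX

open Finset

section square

variable {V : Type} [AddCommGroup V] [Fintype V]

/-- the square of the averages -/
theorem sum_sq (H : Finset V) (hH : ∀ a ∈ H, ∀ b ∈ H, a - b ∈ H) (G : V → ℝ) :
    ∑ a, (∑ h ∈ H, G (h + a)) ^ 2 = H.card * ∑ h ∈ H, ∑ a, G (h + a) * G a := by
  have hadd : ∀ a ∈ H, ∀ b ∈ H, a + b ∈ H := by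
    intro a ha b hb
    have h0 := hH b hb b hb
    rw [sub_self] at h0
    have h1 := hH 0 h0 b hb
    rw [zero_sub] at h1
    have h2 := hH a ha _ h1
    rwa [sub_neg_eq_add] at h2
  have h1 : ∀ a, (∑ h ∈ H, G (h + a)) ^ 2 = ∑ k ∈ H, ∑ h ∈ H, G (h + a) * G (k + a) := by
    intro a
    rw [sq, sum_mul_sum, sum_comm]
  rw [sum_congr rfl fun a _ => h1 a, sum_comm]
  have h2 : ∀ k ∈ H, ∑ a, ∑ h ∈ H, G (h + a) * G (k + a) = ∑ h ∈ H, ∑ a, G (h + a) * G a := by
    intro k hk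
    rw [sum_comm]
    have h3 : ∀ h ∈ H, ∑ a, G (h + a) * G (k + a) = ∑ a, G ((h - k) + a) * G a := by
      intro h _
      rw [← Equiv.sum_comp (Equiv.addLeft k) fun a => G ((h - k) + a) * G a]
      refine sum_congr rfl fun a _ => ?_
      show G (h + a) * G (k + a) = G ((h - k) + (k + a)) * G (k + a)
      rw [← add_assoc, sub_add_cancel]
    rw [sum_congr rfl h3]
    refine sum_bij' (fun h _ => h - k) (fun h _ => h + k) (fun h hh => hH h hh k hk)
      (fun h hh => hadd h hh k hk) (fun h _ => sub_add_cancel h k) (fun h _ => add_sub_cancel_right h k)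
      (fun h _ => rfl)
  rw [sum_congr rfl h2, sum_const, nsmul_eq_mul]

end square

variable {r : ℕ} {A : Fin r → Type} [∀ i, AddCommGroup (A i)] [∀ i, Fintype (A i)]

/-- the correlations of a product function -/
theorem prod_corr (φ : ∀ i, A i → ℝ) (h : ∀ i, A i) :
    ∑ a : ∀ i, A i, (∏ i, φ i ((h + a) i)) * ∏ i, φ i (a i) = ∏ i, corr (φ i) (h i) := by
  classical
  unfold corr
  rw [prod_univ_sum, Fintype.piFinset_univ]
  refine sum_congr rfl fun a _ => ?_
  rw [← prod_mul_distrib]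
  rfl

/-- **The averages of a product function over a subgroup.** -/
theorem sum_abs_le (H : Finset (∀ i, A i)) (hH : ∀ a ∈ H, ∀ b ∈ H, a - b ∈ H) (i₀ : Fin r)
    {κ δ M : ℝ} (hκ : 0 ≤ κ) (hδ0 : 0 ≤ δ) (hM1 : 1 ≤ M)
    (hI : ∀ c : A i₀ → ℝ, (∀ u, 0 ≤ c u) →
      Fintype.card (A i₀) * ∑ h ∈ H, c (h i₀) ≤ κ * H.card * ∑ u, c u)
    (φ : ∀ i, A i → ℝ) (hφ : ∀ i a, |φ i a| ≤ M)
    (hδ : ∀ ψ : AddChar (A i₀) ℂ, ‖hat ψ (φ i₀)‖ ≤ δ * Fintype.card (A i₀)) :
    (∑ a : ∀ i, A i, |∑ h ∈ H, ∏ i, φ i ((h + a) i)|) ^ 2 ≤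
      κ * δ * M ^ (2 * r) * (H.card * Fintype.card (∀ i, A i)) ^ 2 := by
  classical
  have hM0 : 0 ≤ M := by linarith
  have hA : (0 : ℝ) < Fintype.card (A i₀) := by exact_mod_cast Fintype.card_pos
  set B : ℝ := ∏ i ∈ univ.erase i₀, (M ^ 2 * Fintype.card (A i)) with hB
  have hB0 : 0 ≤ B := prod_nonneg fun i _ => by positivity
  have h1 : ∑ h ∈ H, ∑ a : ∀ i, A i, (∏ i, φ i ((h + a) i)) * ∏ i, φ i (a i) ≤
      B * (κ * H.card * (δ * M * Fintype.card (A i₀))) := by
    have h2 : ∀ h ∈ H, ∑ a : ∀ i, A i, (∏ i, φ i ((h + a) i)) * ∏ i, φ i (a i) ≤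
        B * |corr (φ i₀) (h i₀)| := by
      intro h _
      rw [prod_corr]
      refine (le_abs_self _).trans ?_
      rw [abs_prod, ← mul_prod_erase univ _ (mem_univ i₀), mul_comm]
      refine mul_le_mul_of_nonneg_right ?_ (abs_nonneg _)
      exact prod_le_prod (fun i _ => abs_nonneg _) fun i _ => abs_corr_le (hφ i) (h i)
    refine (sum_le_sum h2).trans ?_
    rw [← mul_sum]
    refine mul_le_mul_of_nonneg_left ?_ hB0
    have h3 := hI (fun u => |corr (φ i₀) u|) fun u => abs_nonneg _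
    have h4 := corr_abs hδ0 hM0 (hφ i₀) hδ
    have h5 : (Fintype.card (A i₀) : ℝ) * ∑ h ∈ H, |corr (φ i₀) (h i₀)| ≤
        Fintype.card (A i₀) * (κ * H.card * (δ * M * Fintype.card (A i₀))) := by
      refine h3.trans ?_
      calc κ * H.card * ∑ u, |corr (φ i₀) u| ≤ κ * H.card * (δ * M * (Fintype.card (A i₀) : ℝ) ^ 2) :=
            mul_le_mul_of_nonneg_left h4 (by positivity)
        _ = _ := by ring
    exact le_of_mul_le_mul_left h5 hA
  have h6 : B * (κ * H.card * (δ * M * Fintype.card (A i₀))) ≤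
      κ * δ * M ^ (2 * r) * (H.card * Fintype.card (∀ i, A i)) := by
    have h7 : M ≤ M ^ 2 := by nlinarith
    have h8 : B * (M ^ 2 * Fintype.card (A i₀)) = M ^ (2 * r) * Fintype.card (∀ i, A i) := by
      rw [hB, mul_comm, mul_prod_erase univ (fun i => M ^ 2 * (Fintype.card (A i) : ℝ)) (mem_univ i₀),
        prod_mul_distrib, prod_const, card_univ, Fintype.card_fin, ← pow_mul, Fintype.card_pi]
      push_cast
      rfl
    calc B * (κ * H.card * (δ * M * Fintype.card (A i₀))) =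
        (κ * δ * H.card) * (B * (M * Fintype.card (A i₀))) := by ring
      _ ≤ (κ * δ * H.card) * (B * (M ^ 2 * Fintype.card (A i₀))) := by
          refine mul_le_mul_of_nonneg_left (mul_le_mul_of_nonneg_left ?_ hB0) (by positivity)
          exact mul_le_mul_of_nonneg_right h7 hA.le
      _ = _ := by
          rw [h8]
          ring
  have h9 := sum_sq H hH fun a : ∀ i, A i => ∏ i, φ i (a i)
  have h10 := sq_sum_le_card_mul_sum_sq (s := (univ : Finset (∀ i, A i)))
    (f := fun a => |∑ h ∈ H, ∏ i, φ i ((h + a) i)|)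
  simp only [sq_abs] at h10
  rw [card_univ] at h10
  refine h10.trans ?_
  rw [h9]
  calc (Fintype.card (∀ i, A i) : ℝ) * (H.card * ∑ h ∈ H, ∑ a : ∀ i, A i,
        (∏ i, φ i ((h + a) i)) * ∏ i, φ i (a i)) ≤
      Fintype.card (∀ i, A i) * (H.card * (κ * δ * M ^ (2 * r) * (H.card * Fintype.card (∀ i, A i)))) := by
        refine mul_le_mul_of_nonneg_left (mul_le_mul_of_nonneg_left (h1.trans h6) (by positivity))
          (by positivity)
    _ = _ := by ring

end Pool.Agent.L0h11.MX
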