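import Pool.Agent.L0h15.PM.Main
import Pool.Agent.L0h11.MX.Gp

/-!
# The Galois orbits of the special points of a product, equal CM fields allowed
-/

set_option autoImplicit false

namespace Pool.Agent.L0h11.MX

open Finset Pool.Agent.L0h15.PM

variable {F : Type} [Field F] (T : CMTheory F)

section one

variable {T} {C : T.Variety} {o : T.Order}

lemma act_mem {x : T.P C} (hx : x ∈ T.pts C o) (a : T.Pic o) : T.act C o a x ∈ T.pts C o := by
  obtain ⟨σ, hσ, rfl⟩ := T.art_surj o a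
  rw [← T.art_act C o σ x hσ hx]
  exact T.gal_mem C o σ x hx

lemma act_add {x : T.P C} (hx : x ∈ T.pts C o) (a b : T.Pic o) :
    T.act C o a (T.act C o b x) = T.act C o (a + b) x := by
  obtain ⟨σ, hσ, rfl⟩ := T.art_surj o a
  obtain ⟨τ, hτ, rfl⟩ := T.art_surj o b
  rw [← T.art_act C o τ x hτ hx, ← T.art_act C o σ _ hσ (T.gal_mem C o τ x hx), ← mul_smul,
    T.art_act C o (σ * τ) x ((T.K o).mul_mem hσ hτ) hx, T.art_mul o σ τ hσ hτ]

lemma gal_act {x : T.P C} (hx : x ∈ T.pts C o) (a : T.Pic o) {τ : Gal F} (hτ : τ ∈ T.K o) :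
    τ • T.act C o a x = T.act C o a (τ • x) := by
  rw [T.art_act C o τ _ hτ (act_mem hx a), act_add hx, T.art_act C o τ x hτ hx, act_add hx, add_comm]

lemma gal_act' {x : T.P C} (hx : x ∈ T.pts C o) (a : T.Pic o) {τ : Gal F} (hτ : τ ∉ T.K o) :
    τ • T.act C o a x = T.act C o (-a) (τ • x) := by
  obtain ⟨σ, hσ, rfl⟩ := T.art_surj o a
  rw [← T.art_act C o σ x hσ hx, ← T.art_conj o σ τ hσ hτ,
    ← T.art_act C o _ _ (T.conj_mem o hσ τ) (T.gal_mem C o τ x hx), ← mul_smul, ← mul_smul]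
  congr 1
  group

end one

variable {r : ℕ} {c : Fin r → T.Variety} (o : Fin r → T.Order)

/-- the translates by the class groups -/
def tr (a : ∀ i, T.Pic (o i)) (x : ∀ i, T.P (c i)) : ∀ i, T.P (c i) :=
  fun i => T.act (c i) (o i) (a i) (x i)

/-- the points with complex multiplication by the orders `o i` -/
def Pts (c : Fin r → T.Variety) (o : Fin r → T.Order) : Set (∀ i, T.P (c i)) :=
  {x | ∀ i, x i ∈ T.pts (c i) (o i)}

lemma pts_finite (c : Fin r → T.Variety) (o : Fin r → T.Order) : (Pts T c o).Finite := by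
  have h : (Set.univ.pi fun i => T.pts (c i) (o i)).Finite :=
    Set.Finite.pi fun i => T.pts_finite (c i) (o i)
  exact h.subset fun y hy i _ => hy i

open Classical in
/-- the elements of the product of the class groups given by Galois elements -/
noncomputable def HH : Finset (∀ i, T.Pic (o i)) :=
  univ.filter fun a => ∃ σ : Gal F, (∀ k, σ ∈ T.K (o k)) ∧ ∀ i, T.art (o i) σ = a i

variable {T} {o}

lemma mem_HH {a : ∀ i, T.Pic (o i)} :
    a ∈ HH T o ↔ ∃ σ : Gal F, (∀ k, σ ∈ T.K (o k)) ∧ ∀ i, T.art (o i) σ = a i := by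
  classical
  unfold HH
  rw [mem_filter]
  exact and_iff_right (mem_univ _)

lemma HH_sub {a b : ∀ i, T.Pic (o i)} (ha : a ∈ HH T o) (hb : b ∈ HH T o) : a - b ∈ HH T o := by
  rw [mem_HH] at ha hb ⊢
  obtain ⟨σ, h1, h2⟩ := ha
  obtain ⟨τ, h3, h4⟩ := hb
  refine ⟨σ * τ⁻¹, fun k => (T.K (o k)).mul_mem (h1 k) ((T.K (o k)).inv_mem (h3 k)), fun i => ?_⟩
  rw [T.art_mul (o i) _ _ (h1 i) ((T.K (o i)).inv_mem (h3 i)), T.art_inv (o i) (h3 i), h2 i, h4 i,
    Pi.sub_apply, sub_eq_add_neg]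

lemma HH_zero : (0 : ∀ i, T.Pic (o i)) ∈ HH T o :=
  mem_HH.2 ⟨1, fun k => (T.K (o k)).one_mem, fun i => T.art_one (o i)⟩

lemma HH_neg {a : ∀ i, T.Pic (o i)} (ha : a ∈ HH T o) : -a ∈ HH T o := by
  have := HH_sub HH_zero ha
  rwa [zero_sub] at this

lemma HH_add {a b : ∀ i, T.Pic (o i)} (ha : a ∈ HH T o) (hb : b ∈ HH T o) : a + b ∈ HH T o := by
  have := HH_sub ha (HH_neg hb)
  rwa [sub_neg_eq_add] at this

lemma HH_pos : (0 : ℝ) < (HH T o).card := by
  exact_mod_cast card_pos.2 ⟨_, HH_zero⟩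

lemma Pi_pos : (0 : ℝ) < Fintype.card (∀ i, T.Pic (o i)) := by
  exact_mod_cast Fintype.card_pos

open Classical in
/-- the pattern of a Galois element -/
noncomputable def pat (o : Fin r → T.Order) (σ : Gal F) : Finset (Fin r) :=
  univ.filter fun k => σ ∈ T.K (o k)

lemma mem_pat {σ : Gal F} {k : Fin r} : k ∈ pat o σ ↔ σ ∈ T.K (o k) := by
  classical
  unfold pat
  rw [mem_filter]
  exact and_iff_right (mem_univ _)

lemma pat_eq {σ τ : Gal F} (h : pat o σ = pat o τ) (k : Fin r) : σ * τ⁻¹ ∈ T.K (o k) := by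
  rw [Subgroup.mul_mem_iff_of_index_two (T.index (o k)), inv_mem_iff, ← mem_pat, ← mem_pat (o := o), h]

/-- **The projections of the Galois group on the factors.** -/
theorem proj_le (i₀ : Fin r) (g : T.Pic (o i₀) → ℝ) (hg : ∀ u, 0 ≤ g u) :
    Fintype.card (T.Pic (o i₀)) * ∑ h ∈ HH T o, g (h i₀) ≤ 2 ^ r * (HH T o).card * ∑ u, g u := by
  classical
  choose τ hτ1 hτ2 using T.art_surj (o i₀)
  set N : T.Pic (o i₀) → ℕ := fun u => ((HH T o).filter fun h => h i₀ = u).card with hN
  have h1 : ∀ u, N u ≤ N 0 := by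
    intro u
    rcases ((HH T o).filter fun h => h i₀ = u).eq_empty_or_nonempty with h | ⟨h₀, hh₀⟩
    · rw [hN]
      simp only [h, card_empty, zero_le]
    · rw [mem_filter] at hh₀
      refine card_le_card_of_injOn (fun h => h - h₀) ?_ ?_
      · intro h hh
        rw [mem_coe, mem_filter] at hh ⊢
        refine ⟨HH_sub hh.1 hh₀.1, ?_⟩
        show h i₀ - h₀ i₀ = 0
        rw [hh.2, hh₀.2, sub_self]
      · intro h _ h' _ heq
        exact sub_left_injective heq
  have h2 : Fintype.card (T.Pic (o i₀)) * N 0 ≤ 2 ^ r * (HH T o).card := by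
    have h3 : ∀ v : Finset (Fin r),
        (univ.filter fun a => pat o (τ a) = v).card * N 0 ≤ (HH T o).card := by
      intro v
      rcases (univ.filter fun a => pat o (τ a) = v).eq_empty_or_nonempty with h | ⟨b, hb⟩
      · rw [h, card_empty, zero_mul]
        exact Nat.zero_le _
      · rw [mem_filter] at hb
        rw [hN]
        simp only
        rw [← card_product]
        have hmem : ∀ a, pat o (τ a) = v → (fun i => T.art (o i) (τ a * (τ b)⁻¹)) ∈ HH T o := by
          intro a ha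
          exact mem_HH.2 ⟨τ a * (τ b)⁻¹, fun k => pat_eq (ha.trans hb.2.symm) k, fun i => rfl⟩
        have hi₀ : ∀ a, T.art (o i₀) (τ a * (τ b)⁻¹) = a - b := by
          intro a
          rw [T.art_mul _ _ _ (hτ1 a) ((T.K (o i₀)).inv_mem (hτ1 b)), T.art_inv _ (hτ1 b), hτ2, hτ2,
            sub_eq_add_neg]
        refine card_le_card_of_injOn (fun p => p.2 + fun i => T.art (o i) (τ p.1 * (τ b)⁻¹)) ?_ ?_
        · rintro ⟨a, k⟩ hp
          rw [mem_coe, mem_product, mem_filter, mem_filter] at hp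
          exact HH_add hp.2.1 (hmem a hp.1.2)
        · rintro ⟨a, k⟩ hp ⟨a', k'⟩ hp' heq
          rw [mem_coe, mem_product, mem_filter, mem_filter] at hp hp'
          have h4 : k + (fun i => T.art (o i) (τ a * (τ b)⁻¹)) =
              k' + fun i => T.art (o i) (τ a' * (τ b)⁻¹) := heq
          have h5 := congrFun h4 i₀
          have hk : k i₀ = 0 := hp.2.2
          have hk' : k' i₀ = 0 := hp'.2.2
          rw [Pi.add_apply, Pi.add_apply, hi₀, hi₀, hk, hk', zero_add, zero_add] at h5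
          have h6 : a = a' := sub_left_injective h5
          subst h6
          rw [add_left_inj] at h4
          rw [h4]
    have h4 : ∑ v : Finset (Fin r), (univ.filter fun a => pat o (τ a) = v).card =
        Fintype.card (T.Pic (o i₀)) := by
      rw [← card_univ, card_eq_sum_card_fiberwise (f := fun a => pat o (τ a)) (t := univ)
        (fun a _ => mem_univ _)]
    rw [← h4, sum_mul]
    refine (sum_le_sum fun v _ => h3 v).trans ?_
    rw [sum_const, card_univ, Fintype.card_finset, Fintype.card_fin, smul_eq_mul]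
  have h3 : ∑ h ∈ HH T o, g (h i₀) = ∑ u, (N u : ℝ) * g u := by
    rw [← sum_fiberwise_of_maps_to (s := HH T o) (t := univ) (g := fun h => h i₀)
      (fun h _ => mem_univ _) fun h => g (h i₀)]
    refine sum_congr rfl fun u _ => ?_
    rw [hN, sum_congr rfl (g := fun _ => g u), sum_const, nsmul_eq_mul]
    intro h hh
    rw [mem_filter] at hh
    rw [hh.2]
  have h4 : ∑ u, (N u : ℝ) * g u ≤ N 0 * ∑ u, g u := by
    rw [mul_sum]
    exact sum_le_sum fun u _ => mul_le_mul_of_nonneg_right (by exact_mod_cast h1 u) (hg u)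
  have h5 : 0 ≤ ∑ u, g u := sum_nonneg fun u _ => hg u
  rw [h3]
  calc (Fintype.card (T.Pic (o i₀)) : ℝ) * ∑ u, (N u : ℝ) * g u ≤
      Fintype.card (T.Pic (o i₀)) * (N 0 * ∑ u, g u) := mul_le_mul_of_nonneg_left h4 (by positivity)
    _ = (Fintype.card (T.Pic (o i₀)) * N 0 : ℝ) * ∑ u, g u := by ring
    _ ≤ (2 ^ r * (HH T o).card : ℝ) * ∑ u, g u :=
        mul_le_mul_of_nonneg_right (by exact_mod_cast h2) h5

/-- the average over the translates by the Galois elements -/
noncomputable def LH (o : Fin r → T.Order) (f : C(∀ i, T.X (c i), ℝ)) (z : ∀ i, T.P (c i)) : ℝ :=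
  (∑ h ∈ HH T o, f fun i => T.pt (c i) (tr T o h z i)) / (HH T o).card

lemma LH_gal {z : ∀ i, T.P (c i)} (hz : z ∈ Pts T c o) (f : C(∀ i, T.X (c i), ℝ)) {γ : Gal F}
    (hγ : ∀ k, γ ∈ T.K (o k)) : LH o f (γ • z) = LH o f z := by
  unfold LH
  congr 1
  set g : ∀ i, T.Pic (o i) := fun i => T.art (o i) γ with hg
  have hgm : g ∈ HH T o := mem_HH.2 ⟨γ, hγ, fun i => rfl⟩
  refine sum_bij' (fun h _ => h + g) (fun h _ => h - g) (fun h hh => HH_add hh hgm)
    (fun h hh => HH_sub hh hgm) (fun h _ => add_sub_cancel_right h g)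
    (fun h _ => sub_add_cancel h g) (fun h _ => ?_)
  congr 1
  funext i
  congr 1
  show T.act (c i) (o i) (h i) (γ • z i) = T.act (c i) (o i) (h i + T.art (o i) γ) (z i)
  rw [T.art_act (c i) (o i) γ (z i) (hγ i) (hz i), act_add (hz i)]

/-- the average over the Galois orbit -/
theorem orbitAverage_eq {z : ∀ i, T.P (c i)} (hz : z ∈ Pts T c o)
    [Fintype (MulAction.orbit (Gal F) z)] (f : C(∀ i, T.X (c i), ℝ)) :
    T.orbitAverage c f z = (∑ y : MulAction.orbit (Gal F) z, LH o f y.1) /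
      Fintype.card (MulAction.orbit (Gal F) z) := by
  classical
  rw [CMTheory.orbitAverage, finsum_eq_sum_of_fintype, Nat.card_eq_fintype_card]
  congr 1
  have h1 : ∀ h ∈ HH T o, ∑ y : MulAction.orbit (Gal F) z, (f fun i => T.pt (c i) (tr T o h y.1 i)) =
      ∑ y : MulAction.orbit (Gal F) z, f fun i => T.pt (c i) (y.1 i) := by
    intro h hh
    obtain ⟨σ, hσ1, hσ2⟩ := mem_HH.1 hh
    rw [← Equiv.sum_comp (MulAction.toPerm σ : Equiv.Perm (MulAction.orbit (Gal F) z))
      fun y => f fun i => T.pt (c i) (y.1 i)]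
    refine sum_congr rfl fun y _ => ?_
    congr 1
    funext i
    congr 1
    have h2 := T.art_act (c i) (o i) σ (y.1 i) (hσ1 i) (T.orbit_mem hz y.2 i)
    rw [hσ2 i] at h2
    exact h2.symm
  unfold LH
  rw [← sum_div, sum_comm, sum_congr rfl h1, sum_const, nsmul_eq_mul, mul_div_cancel_left₀ _ HH_pos.ne']

/-- **The Galois orbit.** -/
theorem orbit_le (o : Fin r → T.Order) (f : C(∀ i, T.X (c i), ℝ)) (I : ℝ) :
    ∃ τ : Finset (Fin r) → Gal F, ∀ z ∈ Pts T c o,
      |T.orbitAverage c f z - I| ≤ ∑ v, |LH o f (τ v • z) - I| := by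
  classical
  let τ : Finset (Fin r) → Gal F := fun v => if h : ∃ σ, pat o σ = v then h.choose else 1
  have hτ : ∀ σ : Gal F, pat o (τ (pat o σ)) = pat o σ := by
    intro σ
    have h : ∃ σ', pat o σ' = pat o σ := ⟨σ, rfl⟩
    show pat o (if h : ∃ σ', pat o σ' = pat o σ then h.choose else 1) = pat o σ
    rw [dif_pos h]
    exact h.choose_spec
  refine ⟨τ, fun z hz => ?_⟩
  have hfin : Finite (MulAction.orbit (Gal F) z) := T.orbit_finite hz
  have hft : Fintype (MulAction.orbit (Gal F) z) := Fintype.ofFinite _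
  have hpos : (0 : ℝ) < Fintype.card (MulAction.orbit (Gal F) z) := by
    have : Nonempty (MulAction.orbit (Gal F) z) := ⟨⟨z, MulAction.mem_orbit_self _⟩⟩
    exact_mod_cast Fintype.card_pos
  rw [orbitAverage_eq hz f]
  have h2 : (∑ y : MulAction.orbit (Gal F) z, LH o f y.1) /
      Fintype.card (MulAction.orbit (Gal F) z) - I =
      (∑ y : MulAction.orbit (Gal F) z, (LH o f y.1 - I)) /
      Fintype.card (MulAction.orbit (Gal F) z) := by
    rw [sum_sub_distrib, sum_const, nsmul_eq_mul, card_univ, sub_div, mul_div_cancel_left₀ _ hpos.ne']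
  rw [h2, abs_div, abs_of_pos hpos, div_le_iff₀ hpos]
  refine (abs_sum_le_sum_abs _ _).trans ?_
  have h3 : ∀ y : MulAction.orbit (Gal F) z, |LH o f y.1 - I| ≤ ∑ v, |LH o f (τ v • z) - I| := by
    rintro ⟨y, σ, rfl⟩
    have h4 : LH o f (σ • z) = LH o f (τ (pat o σ) • z) := by
      have h5 : σ • z = (σ * (τ (pat o σ))⁻¹) • (τ (pat o σ) • z) := by
        rw [← mul_smul, inv_mul_cancel_right]
      rw [h5]
      exact LH_gal (fun i => T.gal_mem (c i) (o i) _ _ (hz i)) f fun k => pat_eq (hτ σ).symm k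
    show |LH o f (σ • z) - I| ≤ _
    rw [h4]
    exact single_le_sum (f := fun v => |LH o f (τ v • z) - I|) (fun v _ => abs_nonneg _)
      (mem_univ (pat o σ))
  refine (sum_le_sum fun y _ => h3 y).trans ?_
  rw [sum_const, nsmul_eq_mul, mul_comm, card_univ]

/-- the translates of a conjugate -/
lemma sum_conj {x : ∀ i, T.P (c i)} (hx : x ∈ Pts T c o) (τ : Gal F) (g : (∀ i, T.P (c i)) → ℝ) :
    ∑ a : ∀ i, T.Pic (o i), g (τ • tr T o a x) = ∑ a : ∀ i, T.Pic (o i), g (tr T o a (τ • x)) := by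
  classical
  let e : (∀ i, T.Pic (o i)) → ∀ i, T.Pic (o i) := fun a i => if τ ∈ T.K (o i) then a i else -a i
  have he : ∀ a, e (e a) = a := by
    intro a
    funext i
    show (if τ ∈ T.K (o i) then e a i else -e a i) = a i
    show (if τ ∈ T.K (o i) then (if τ ∈ T.K (o i) then a i else -a i) else
      -(if τ ∈ T.K (o i) then a i else -a i)) = a i
    split_ifs
    · rfl
    · rw [neg_neg]
  rw [← Equiv.sum_comp (⟨e, e, he, he⟩ : Equiv.Perm (∀ i, T.Pic (o i))) fun a => g (tr T o a (τ • x))]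
  refine sum_congr rfl fun a _ => ?_
  congr 1
  funext i
  show τ • T.act (c i) (o i) (a i) (x i) =
    T.act (c i) (o i) (if τ ∈ T.K (o i) then a i else -a i) (τ • x i)
  split_ifs with h
  · exact gal_act (hx i) (a i) h
  · exact gal_act' (hx i) (a i) h

end Pool.Agent.L0h11.MX
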