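import Pool.Agent.L0h11.MX.Cm

/-!
# The mean deviation of the averages for all continuous functions
-/

set_option autoImplicit false

namespace Pool.Agent.L0h11.MX

open Finset Pool.Agent.L0h15.PM MeasureTheory

/-- Curves for which the theorem of Duke is known, with class group characters: for every continuous
function `f` the sums of `ψ (a) (f (a x) - ∫ f)` over the class group of the order are small, uniformly
for all characters `ψ` of the class group (for the trivial character this is the equidistribution of the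
points with complex multiplication, for the other characters the integral can be omitted). Known by
subconvexity: Duke, Duke-Friedlander-Iwaniec, Zhang, Michel, Harcos-Michel, Michel-Venkatesh. -/
structure DukeCharacters {F : Type} [Field F] (T : CMTheory F) where
  /-- the curves -/
  IsCurve : T.Variety → Prop
  /-- the norm of the relative discriminant -/
  disc : T.Order → ℕ
  finite_disc : ∀ B : ℕ, {o | disc o ≤ B}.Finite
  equi : ∀ C, IsCurve C → ∀ (f : C(T.X C, ℝ)) (ε : ℝ), 0 < ε → ∃ B : ℕ, ∀ o, B ≤ disc o →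
    ∀ x ∈ T.pts C o, ∀ ψ : AddChar (T.Pic o) ℂ,
      ‖∑ a : T.Pic o, ψ a * ((f (T.pt C (T.act C o a x)) - ∫ z, f z ∂(T.μ C) : ℝ) : ℂ)‖ ≤
        ε * Fintype.card (T.Pic o)

variable {F : Type} [Field F] {T : CMTheory F} {r : ℕ} {c : Fin r → T.Variety}

section LHlemmas

variable {o : Fin r → T.Order}

lemma LH_add (f g : C(∀ i, T.X (c i), ℝ)) (z : ∀ i, T.P (c i)) :
    LH o (f + g) z = LH o f z + LH o g z := by
  rw [LH, LH, LH, ← add_div, ← sum_add_distrib]
  rfl

lemma LH_smul (t : ℝ) (f : C(∀ i, T.X (c i), ℝ)) (z : ∀ i, T.P (c i)) :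
    LH o (t • f) z = t * LH o f z := by
  rw [LH, LH, mul_div_assoc', mul_sum]
  rfl

lemma LH_sub_le (f g : C(∀ i, T.X (c i), ℝ)) (z : ∀ i, T.P (c i)) :
    |LH o f z - LH o g z| ≤ ‖f - g‖ := by
  rw [LH, LH, ← sub_div, ← sum_sub_distrib, abs_div, abs_of_pos HH_pos, div_le_iff₀ HH_pos]
  refine (abs_sum_le_sum_abs _ _).trans ?_
  have h : ∀ a ∈ HH T o, |(f fun i => T.pt (c i) (tr T o a z i)) -
      g fun i => T.pt (c i) (tr T o a z i)| ≤ ‖f - g‖ := by
    intro a _
    exact (f - g).norm_coe_le_norm _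
  refine (sum_le_sum h).trans ?_
  rw [sum_const, nsmul_eq_mul, mul_comm]

end LHlemmas

/-- the mean deviation -/
noncomputable def dev (o : Fin r → T.Order) (f : C(∀ i, T.X (c i), ℝ)) (x : ∀ i, T.P (c i)) : ℝ :=
  (∑ a : ∀ i, T.Pic (o i), |LH o f (tr T o a x) - ∫ z, f z ∂(T.ν c)|) /
    Fintype.card (∀ i, T.Pic (o i))

/-- the mean deviations are small for large discriminants -/
def Good (D : DukeCharacters T) (f : C(∀ i, T.X (c i), ℝ)) : Prop :=
  ∀ ε : ℝ, 0 < ε → ∃ B : ℕ, ∀ o : Fin r → T.Order, (∀ i, B ≤ D.disc (o i)) →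
    ∀ x ∈ Pts T c o, dev o f x ≤ ε

lemma dev_nonneg (o : Fin r → T.Order) (f : C(∀ i, T.X (c i), ℝ)) (x : ∀ i, T.P (c i)) :
    0 ≤ dev o f x := div_nonneg (sum_nonneg fun _ _ => abs_nonneg _) (Nat.cast_nonneg _)

lemma dev_add (o : Fin r → T.Order) (f g : C(∀ i, T.X (c i), ℝ)) (x : ∀ i, T.P (c i)) :
    dev o (f + g) x ≤ dev o f x + dev o g x := by
  unfold dev
  rw [← add_div, ← sum_add_distrib]
  refine div_le_div_of_nonneg_right (sum_le_sum fun a _ => ?_) (Nat.cast_nonneg _)
  have h : (∫ z, (f + g) z ∂(T.ν c)) = (∫ z, f z ∂(T.ν c)) + ∫ z, g z ∂(T.ν c) := by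
    rw [← integral_add (T.integrable f) (T.integrable g)]
    rfl
  rw [LH_add, h]
  have h2 : LH o f (tr T o a x) + LH o g (tr T o a x) - ((∫ z, f z ∂(T.ν c)) + ∫ z, g z ∂(T.ν c)) =
      (LH o f (tr T o a x) - ∫ z, f z ∂(T.ν c)) + (LH o g (tr T o a x) - ∫ z, g z ∂(T.ν c)) := by
    ring
  rw [h2]
  exact abs_add_le _ _

lemma dev_smul (o : Fin r → T.Order) (t : ℝ) (f : C(∀ i, T.X (c i), ℝ)) (x : ∀ i, T.P (c i)) :
    dev o (t • f) x = |t| * dev o f x := by
  unfold dev
  rw [mul_div_assoc', mul_sum]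
  congr 1
  refine sum_congr rfl fun a _ => ?_
  have h : (∫ z, (t • f) z ∂(T.ν c)) = t * ∫ z, f z ∂(T.ν c) := by
    rw [← integral_const_mul]
    rfl
  rw [LH_smul, h, ← mul_sub, abs_mul]

lemma dev_le (o : Fin r → T.Order) (f g : C(∀ i, T.X (c i), ℝ)) (x : ∀ i, T.P (c i)) :
    dev o f x ≤ dev o g x + 2 * ‖f - g‖ := by
  unfold dev
  have hp : (0 : ℝ) < Fintype.card (∀ i, T.Pic (o i)) := Pi_pos
  rw [div_le_iff₀ hp, add_mul, div_mul_cancel₀ _ hp.ne']
  have h : ∀ a ∈ (univ : Finset (∀ i, T.Pic (o i))), |LH o f (tr T o a x) - ∫ z, f z ∂(T.ν c)| ≤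
      |LH o g (tr T o a x) - ∫ z, g z ∂(T.ν c)| + 2 * ‖f - g‖ := by
    intro a _
    have h1 := LH_sub_le (o := o) f g (tr T o a x)
    have h2 := T.int_sub_le g f
    rw [norm_sub_rev] at h2
    have h3 : LH o f (tr T o a x) - ∫ z, f z ∂(T.ν c) =
        (LH o f (tr T o a x) - LH o g (tr T o a x)) + (LH o g (tr T o a x) - ∫ z, g z ∂(T.ν c)) +
        ((∫ z, g z ∂(T.ν c)) - ∫ z, f z ∂(T.ν c)) := by ring
    rw [h3]
    refine (abs_add_three _ _ _).trans ?_
    linarith
  refine (sum_le_sum h).trans ?_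
  rw [sum_add_distrib, sum_const, card_univ, nsmul_eq_mul]
  linarith [mul_comm (Fintype.card (∀ i, T.Pic (o i)) : ℝ) (2 * ‖f - g‖)]

variable {D : DukeCharacters T}

lemma good_add {f g : C(∀ i, T.X (c i), ℝ)} (hf : Good D f) (hg : Good D g) : Good D (f + g) := by
  intro ε hε
  obtain ⟨B, hB⟩ := hf (ε / 2) (by positivity)
  obtain ⟨B', hB'⟩ := hg (ε / 2) (by positivity)
  refine ⟨max B B', fun o ho x hx => ?_⟩
  have h1 := hB o (fun i => (le_max_left _ _).trans (ho i)) x hx
  have h2 := hB' o (fun i => (le_max_right _ _).trans (ho i)) x hx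
  have h3 := dev_add o f g x
  linarith

lemma good_smul {f : C(∀ i, T.X (c i), ℝ)} (t : ℝ) (hf : Good D f) : Good D (t • f) := by
  intro ε hε
  obtain ⟨B, hB⟩ := hf (ε / (|t| + 1)) (by positivity)
  refine ⟨B, fun o ho x hx => ?_⟩
  rw [dev_smul]
  have h1 := hB o ho x hx
  have h2 := dev_nonneg o f x
  calc |t| * dev o f x ≤ (|t| + 1) * (ε / (|t| + 1)) :=
        mul_le_mul (by linarith) h1 h2 (by positivity)
    _ = ε := by field_simp

lemma good_closure {S : Set C(∀ i, T.X (c i), ℝ)} (hS : ∀ f ∈ S, Good D f)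
    {f : C(∀ i, T.X (c i), ℝ)} (hf : f ∈ closure S) : Good D f := by
  intro ε hε
  obtain ⟨g, hg, hfg⟩ := Metric.mem_closure_iff.1 hf (ε / 4) (by positivity)
  obtain ⟨B, hB⟩ := hS g hg (ε / 2) (by positivity)
  refine ⟨B, fun o ho x hx => ?_⟩
  have h1 := hB o ho x hx
  have h2 := dev_le o f g x
  rw [dist_eq_norm] at hfg
  linarith

lemma int_prodFun (f : ∀ i, C(T.X (c i), ℝ)) :
    ∫ z, T.prodFun f z ∂(T.ν c) = ∏ i, ∫ z, f i z ∂(T.μ (c i)) := by
  rw [← integral_fintype_prod_eq_prod]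
  refine integral_congr_ae (Filter.Eventually.of_forall fun z => ?_)
  exact T.prodFun_apply f z

lemma int_le {C : T.Variety} (f : C(T.X C, ℝ)) : |∫ z, f z ∂(T.μ C)| ≤ ‖f‖ := by
  have h := norm_integral_le_of_norm_le_const (μ := T.μ C) (f := fun z => f z) (C := ‖f‖)
    (Filter.Eventually.of_forall fun z => f.norm_coe_le_norm z)
  rwa [probReal_univ, mul_one] at h

lemma expand (u m : Fin r → ℝ) : ∏ i, u i - ∏ i, m i =
    ∑ p ∈ univ.erase (fun _ : Fin r => false), ∏ i, (if p i = true then u i - m i else m i) := by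
  have h1 : ∏ i, u i = ∑ p : Fin r → Bool, ∏ i, (if p i = true then u i - m i else m i) := by
    have h2 := prod_univ_sum (fun _ : Fin r => (univ : Finset Bool))
      (fun i b => if b = true then u i - m i else m i)
    rw [Fintype.piFinset_univ] at h2
    rw [← h2]
    refine prod_congr rfl fun i _ => ?_
    rw [Fintype.sum_bool]
    simp
  rw [h1, ← add_sum_erase univ _ (mem_univ fun _ : Fin r => false)]
  simp

/-- **Products of functions of one variable.** -/
theorem good_prodFun (hc : ∀ i, D.IsCurve (c i)) (f : ∀ i, C(T.X (c i), ℝ)) :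
    Good D (T.prodFun f) := by
  classical
  intro ε hε
  set M : ℝ := 1 + 2 * ∑ i, ‖f i‖ with hM
  have hs0 : 0 ≤ ∑ i, ‖f i‖ := sum_nonneg fun i _ => norm_nonneg _
  have hM1 : 1 ≤ M := by linarith
  have hM0 : 0 < M := by linarith
  have hfM : ∀ i, 2 * ‖f i‖ ≤ M := by
    intro i
    have := single_le_sum (f := fun i => ‖f i‖) (fun i _ => norm_nonneg _) (mem_univ i)
    linarith
  set η : ℝ := ε / 2 ^ r with hη
  have hη0 : 0 < η := by positivity
  set δ : ℝ := η ^ 2 / (2 ^ r * M ^ (2 * r)) with hδ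
  have hδ0 : 0 < δ := by positivity
  choose B hB using fun i => D.equi (c i) (hc i) (f i) δ hδ0
  refine ⟨univ.sup B, fun o ho x hx => ?_⟩
  set m : Fin r → ℝ := fun i => ∫ z, f i z ∂(T.μ (c i)) with hm
  have hp : (0 : ℝ) < Fintype.card (∀ i, T.Pic (o i)) := Pi_pos
  set φ : (Fin r → Bool) → ∀ i, T.Pic (o i) → ℝ := fun p i a =>
    if p i = true then f i (T.pt (c i) (T.act (c i) (o i) a (x i))) - m i else m i with hφ
  have hφM : ∀ p i a, |φ p i a| ≤ M := by
    intro p i a
    have h1 : |f i (T.pt (c i) (T.act (c i) (o i) a (x i)))| ≤ ‖f i‖ := (f i).norm_coe_le_norm _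
    have h2 : |m i| ≤ ‖f i‖ := int_le (f i)
    have h3 := hfM i
    have h4 := norm_nonneg (f i)
    rw [hφ]
    simp only
    split_ifs
    · refine (abs_sub _ _).trans ?_
      linarith
    · linarith
  have hterm : ∀ p ∈ univ.erase (fun _ : Fin r => false),
      ∑ a : ∀ i, T.Pic (o i), |∑ h ∈ HH T o, ∏ i, φ p i ((h + a) i)| ≤
        η * ((HH T o).card * Fintype.card (∀ i, T.Pic (o i))) := by
    intro p hp'
    obtain ⟨i₀, hi₀⟩ : ∃ i₀, p i₀ = true := by
      by_contra hcon
      push Not at hcon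
      refine (mem_erase.1 hp').1 (funext fun i => ?_)
      exact Bool.eq_false_iff.2 (hcon i)
    have h1 := sum_abs_le (HH T o) (fun a ha b hb => HH_sub ha hb) i₀ (κ := 2 ^ r) (δ := δ) (M := M)
      (by positivity) hδ0.le hM1 (fun g hg => proj_le i₀ g hg) (φ p) (hφM p) (by
        intro ψ
        have h2 := hB i₀ (o i₀) ((le_sup (f := B) (mem_univ i₀)).trans (ho i₀)) (x i₀) (hx i₀) ψ
        unfold hat
        refine le_trans (le_of_eq ?_) h2
        congr 1
        refine sum_congr rfl fun a _ => ?_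
        rw [hφ]
        simp only
        rw [if_pos hi₀])
    have h2 : 2 ^ r * δ * M ^ (2 * r) = η ^ 2 := by
      rw [hδ]
      field_simp
    rw [h2, ← mul_pow] at h1
    exact abs_le_of_sq_le_sq' h1 (by positivity) |>.2
  have hdev : ∀ a : ∀ i, T.Pic (o i), LH o (T.prodFun f) (tr T o a x) - ∫ z, T.prodFun f z ∂(T.ν c) =
      (∑ p ∈ univ.erase (fun _ : Fin r => false), ∑ h ∈ HH T o, ∏ i, φ p i ((h + a) i)) /
        (HH T o).card := by
    intro a
    rw [int_prodFun, sum_comm]
    have h1 : ∀ h ∈ HH T o, ∑ p ∈ univ.erase (fun _ : Fin r => false), ∏ i, φ p i ((h + a) i) =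
        (T.prodFun f fun i => T.pt (c i) (tr T o h (tr T o a x) i)) - ∏ i, m i := by
      intro h _
      rw [T.prodFun_apply, expand]
      refine sum_congr rfl fun p _ => prod_congr rfl fun i _ => ?_
      have h2 : tr T o h (tr T o a x) i = T.act (c i) (o i) ((h + a) i) (x i) := act_add (hx i) _ _
      rw [h2]
    rw [sum_congr rfl h1, sum_sub_distrib, sum_const, nsmul_eq_mul, sub_div, mul_div_cancel_left₀ _ HH_pos.ne']
    rfl
  unfold dev
  rw [div_le_iff₀ hp]
  have hH : (0 : ℝ) < (HH T o).card := HH_pos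
  have h1 : ∀ a ∈ (univ : Finset (∀ i, T.Pic (o i))),
      |LH o (T.prodFun f) (tr T o a x) - ∫ z, T.prodFun f z ∂(T.ν c)| ≤
        (∑ p ∈ univ.erase (fun _ : Fin r => false), |∑ h ∈ HH T o, ∏ i, φ p i ((h + a) i)|) /
          (HH T o).card := by
    intro a _
    rw [hdev a, abs_div, abs_of_pos hH]
    exact div_le_div_of_nonneg_right (abs_sum_le_sum_abs _ _) hH.le
  refine (sum_le_sum h1).trans ?_
  rw [← sum_div, sum_comm, div_le_iff₀ hH]
  refine (sum_le_sum hterm).trans ?_
  rw [sum_const, nsmul_eq_mul]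
  have h2 : ((univ.erase (fun _ : Fin r => false)).card : ℝ) ≤ 2 ^ r := by
    have h3 : (univ.erase (fun _ : Fin r => false)).card ≤ (univ : Finset (Fin r → Bool)).card :=
      card_le_card (erase_subset _ _)
    rw [card_univ, Fintype.card_fun, Fintype.card_bool, Fintype.card_fin] at h3
    exact_mod_cast h3
  calc _ ≤ (2 : ℝ) ^ r * (η * ((HH T o).card * Fintype.card (∀ i, T.Pic (o i)))) :=
        mul_le_mul_of_nonneg_right h2 (by positivity)
    _ = ε * Fintype.card (∀ i, T.Pic (o i)) * (HH T o).card := by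
        rw [hη]
        field_simp

lemma good_adjoin (hc : ∀ i, D.IsCurve (c i)) {g : C(∀ i, T.X (c i), ℝ)}
    (hg : g ∈ Algebra.adjoin ℝ (T.gens c)) : Good D g := by
  have h : g ∈ Submodule.span ℝ ((Submonoid.closure (T.gens c) : Submonoid _) : Set _) := by
    rw [← Algebra.adjoin_eq_span]
    exact hg
  clear hg
  induction h using Submodule.span_induction with
  | mem g hg =>
    obtain ⟨f, rfl⟩ := T.mem_monoid hg
    exact good_prodFun hc f
  | zero =>
    have := good_smul 0 (good_prodFun hc (D := D) fun _ => 1)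
    rwa [zero_smul] at this
  | add g h _ _ hg hh => exact good_add hg hh
  | smul t g _ hg => exact good_smul t hg

/-- **The mean deviations tend to zero for all continuous functions.** -/
theorem good_all (hc : ∀ i, D.IsCurve (c i)) (f : C(∀ i, T.X (c i), ℝ)) : Good D f := by
  have h := ContinuousMap.subalgebra_topologicalClosure_eq_top_of_separatesPoints
    (Algebra.adjoin ℝ (T.gens c)) T.separates
  have h1 : f ∈ (Algebra.adjoin ℝ (T.gens c)).topologicalClosure := by
    rw [h]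
    exact Algebra.mem_top
  exact good_closure (S := (Algebra.adjoin ℝ (T.gens c) : Set _))
    (fun g hg => good_adjoin hc hg) (by rw [← Subalgebra.topologicalClosure_coe]; exact h1)

end Pool.Agent.L0h11.MX
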