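import Pool.Agent.L0h11.MX.Mn

/-!
# Equidistribution from Galois elements acting independently on the factors
-/

set_option autoImplicit false

namespace Pool.Agent.L0h11.MX

open Finset Pool.Agent.L0h15.PM MeasureTheory Filter

variable {F : Type} [Field F] {T : CMTheory F} {r : ℕ} {c : Fin r → T.Variety}

section one

variable {o : Fin r → T.Order}

/-- the average over the translates by finite sets -/
noncomputable def LU (U : ∀ i, Finset (T.Pic (o i))) (f : C(∀ i, T.X (c i), ℝ)) (z : ∀ i, T.P (c i)) : ℝ :=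
  (∑ h ∈ Fintype.piFinset U, f fun i => T.pt (c i) (tr T o h z i)) / (Fintype.piFinset U).card

lemma LU_pos {U : ∀ i, Finset (T.Pic (o i))} (hU : ∀ i, (U i).Nonempty) :
    (0 : ℝ) < (Fintype.piFinset U).card := by
  exact_mod_cast card_pos.2 (Fintype.piFinset_nonempty.2 hU)

lemma LU_add (U : ∀ i, Finset (T.Pic (o i))) (f g : C(∀ i, T.X (c i), ℝ)) (z : ∀ i, T.P (c i)) :
    LU U (f + g) z = LU U f z + LU U g z := by
  rw [LU, LU, LU, ← add_div, ← sum_add_distrib]
  rfl

lemma LU_smul (U : ∀ i, Finset (T.Pic (o i))) (t : ℝ) (f : C(∀ i, T.X (c i), ℝ)) (z : ∀ i, T.P (c i)) :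
    LU U (t • f) z = t * LU U f z := by
  rw [LU, LU, mul_div_assoc', mul_sum]
  rfl

lemma LU_sub_le {U : ∀ i, Finset (T.Pic (o i))} (hU : ∀ i, (U i).Nonempty)
    (f g : C(∀ i, T.X (c i), ℝ)) (z : ∀ i, T.P (c i)) : |LU U f z - LU U g z| ≤ ‖f - g‖ := by
  have hp := LU_pos hU
  rw [LU, LU, ← sub_div, ← sum_sub_distrib, abs_div, abs_of_pos hp, div_le_iff₀ hp]
  refine (abs_sum_le_sum_abs _ _).trans ?_
  have h : ∀ a ∈ Fintype.piFinset U, |(f fun i => T.pt (c i) (tr T o a z i)) -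
      g fun i => T.pt (c i) (tr T o a z i)| ≤ ‖f - g‖ := by
    intro a _
    exact (f - g).norm_coe_le_norm _
  refine (sum_le_sum h).trans ?_
  rw [sum_const, nsmul_eq_mul, mul_comm]

lemma LU_prodFun (U : ∀ i, Finset (T.Pic (o i))) (f : ∀ i, C(T.X (c i), ℝ)) (z : ∀ i, T.P (c i)) :
    LU U (T.prodFun f) z = ∏ i, (∑ a ∈ U i, f i (T.pt (c i) (T.act (c i) (o i) a (z i)))) / (U i).card := by
  classical
  rw [LU, prod_div_distrib, Fintype.card_piFinset, Nat.cast_prod]
  congr 1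
  rw [prod_univ_sum]
  refine sum_congr rfl fun a _ => ?_
  rw [T.prodFun_apply]
  rfl

/-- the average over the Galois orbit -/
theorem orbitAverage_LU {U : ∀ i, Finset (T.Pic (o i))} (hU : ∀ i, (U i).Nonempty)
    (hG : ∀ a ∈ Fintype.piFinset U, a ∈ HH T o) {z : ∀ i, T.P (c i)} (hz : z ∈ Pts T c o)
    [Fintype (MulAction.orbit (Gal F) z)] (f : C(∀ i, T.X (c i), ℝ)) :
    T.orbitAverage c f z = (∑ y : MulAction.orbit (Gal F) z, LU U f y.1) /
      Fintype.card (MulAction.orbit (Gal F) z) := by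
  classical
  rw [CMTheory.orbitAverage, finsum_eq_sum_of_fintype, Nat.card_eq_fintype_card]
  congr 1
  have h1 : ∀ h ∈ Fintype.piFinset U,
      ∑ y : MulAction.orbit (Gal F) z, (f fun i => T.pt (c i) (tr T o h y.1 i)) =
      ∑ y : MulAction.orbit (Gal F) z, f fun i => T.pt (c i) (y.1 i) := by
    intro h hh
    obtain ⟨σ, hσ1, hσ2⟩ := mem_HH.1 (hG h hh)
    rw [← Equiv.sum_comp (MulAction.toPerm σ : Equiv.Perm (MulAction.orbit (Gal F) z))
      fun y => f fun i => T.pt (c i) (y.1 i)]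
    refine sum_congr rfl fun y _ => ?_
    congr 1
    funext i
    congr 1
    have h2 := T.art_act (c i) (o i) σ (y.1 i) (hσ1 i) (T.orbit_mem hz y.2 i)
    rw [hσ2 i] at h2
    exact h2.symm
  unfold LU
  rw [← sum_div, sum_comm, sum_congr rfl h1, sum_const, nsmul_eq_mul,
    mul_div_cancel_left₀ _ (LU_pos hU).ne']

end one

variable {o : ℕ → Fin r → T.Order}

/-- the averages tend to the integral, uniformly in the points -/
def GoodU (U : ∀ n i, Finset (T.Pic (o n i))) (f : C(∀ i, T.X (c i), ℝ)) : Prop :=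
  ∀ ε : ℝ, 0 < ε → ∀ᶠ n in atTop, ∀ y ∈ Pts T c (o n), |LU (U n) f y - ∫ z, f z ∂(T.ν c)| ≤ ε

variable {U : ∀ n i, Finset (T.Pic (o n i))}

lemma goodU_add {f g : C(∀ i, T.X (c i), ℝ)} (hf : GoodU U f) (hg : GoodU U g) : GoodU U (f + g) := by
  intro ε hε
  filter_upwards [hf (ε / 2) (by positivity), hg (ε / 2) (by positivity)] with n h1 h2 y hy
  have h := integral_add (T.integrable f) (T.integrable g)
  have h3 := h1 y hy
  have h4 := h2 y hy
  have h5 : (∫ z, (f + g) z ∂(T.ν c)) = (∫ z, f z ∂(T.ν c)) + ∫ z, g z ∂(T.ν c) := h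
  rw [LU_add, h5]
  rw [abs_le] at h3 h4 ⊢
  constructor <;> linarith [h3.1, h3.2, h4.1, h4.2]

lemma goodU_smul {f : C(∀ i, T.X (c i), ℝ)} (t : ℝ) (hf : GoodU U f) : GoodU U (t • f) := by
  intro ε hε
  filter_upwards [hf (ε / (|t| + 1)) (by positivity)] with n h1 y hy
  have h : (∫ z, (t • f) z ∂(T.ν c)) = t * ∫ z, f z ∂(T.ν c) := by
    rw [← integral_const_mul]
    rfl
  rw [LU_smul, h, ← mul_sub, abs_mul]
  calc |t| * |LU (U n) f y - ∫ z, f z ∂(T.ν c)| ≤ (|t| + 1) * (ε / (|t| + 1)) :=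
        mul_le_mul (by linarith) (h1 y hy) (abs_nonneg _) (by positivity)
    _ = ε := by field_simp

lemma goodU_closure (hU : ∀ n i, (U n i).Nonempty) {S : Set C(∀ i, T.X (c i), ℝ)}
    (hS : ∀ f ∈ S, GoodU U f) {f : C(∀ i, T.X (c i), ℝ)} (hf : f ∈ closure S) : GoodU U f := by
  intro ε hε
  obtain ⟨g, hg, hfg⟩ := Metric.mem_closure_iff.1 hf (ε / 4) (by positivity)
  filter_upwards [hS g hg (ε / 2) (by positivity)] with n h1 y hy
  have h2 := h1 y hy
  have h3 := LU_sub_le (hU n) f g y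
  have h4 := T.int_sub_le g f
  rw [norm_sub_rev] at h4
  rw [dist_eq_norm] at hfg
  rw [abs_le] at h2 h3 h4 ⊢
  constructor <;> linarith [h2.1, h2.2, h3.1, h3.2, h4.1, h4.2]

theorem goodU_prodFun
    (hE : ∀ (i : Fin r) (f : C(T.X (c i), ℝ)) (ε : ℝ), 0 < ε → ∀ᶠ n in atTop, ∀ y ∈ T.pts (c i) (o n i),
      |(∑ a ∈ U n i, f (T.pt (c i) (T.act (c i) (o n i) a y))) / (U n i).card -
        ∫ z, f z ∂(T.μ (c i))| ≤ ε) (f : ∀ i, C(T.X (c i), ℝ)) : GoodU U (T.prodFun f) := by
  classical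
  intro ε hε
  set M : ℝ := 1 + ∑ i, ‖f i‖ with hM
  have hs0 : 0 ≤ ∑ i, ‖f i‖ := sum_nonneg fun i _ => norm_nonneg _
  have hM1 : 1 ≤ M := by linarith
  have hM0 : 0 < M := by linarith
  have hfM : ∀ i, ‖f i‖ ≤ M := by
    intro i
    have := single_le_sum (f := fun i => ‖f i‖) (fun i _ => norm_nonneg _) (mem_univ i)
    linarith
  set δ : ℝ := min 1 (ε / (2 ^ r * M ^ r)) with hδ
  have hδ0 : 0 < δ := lt_min one_pos (by positivity)
  have hδ1 : δ ≤ 1 := min_le_left _ _
  have hδε : 2 ^ r * (δ * M ^ r) ≤ ε := by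
    have h1 : δ ≤ ε / (2 ^ r * M ^ r) := min_le_right _ _
    rw [le_div_iff₀ (by positivity)] at h1
    linarith
  have h1 : ∀ᶠ n in atTop, ∀ i, ∀ y ∈ T.pts (c i) (o n i),
      |(∑ a ∈ U n i, f i (T.pt (c i) (T.act (c i) (o n i) a y))) / (U n i).card -
        ∫ z, f i z ∂(T.μ (c i))| ≤ δ := Filter.eventually_all.2 fun i => hE i (f i) δ hδ0
  filter_upwards [h1] with n hn y hy
  rw [LU_prodFun, int_prodFun, expand]
  refine (abs_sum_le_sum_abs _ _).trans ?_
  have h2 : ∀ p ∈ univ.erase (fun _ : Fin r => false), |∏ i, (if p i = true then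
      (∑ a ∈ U n i, f i (T.pt (c i) (T.act (c i) (o n i) a (y i)))) / (U n i).card -
        ∫ z, f i z ∂(T.μ (c i)) else ∫ z, f i z ∂(T.μ (c i)))| ≤ δ * M ^ r := by
    intro p hp'
    obtain ⟨i₀, hi₀⟩ : ∃ i₀, p i₀ = true := by
      by_contra hcon
      push Not at hcon
      refine (mem_erase.1 hp').1 (funext fun i => ?_)
      exact Bool.eq_false_iff.2 (hcon i)
    rw [abs_prod, ← mul_prod_erase univ _ (mem_univ i₀), if_pos hi₀]
    have h3 : ∏ i ∈ univ.erase i₀, |if p i = true then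
        (∑ a ∈ U n i, f i (T.pt (c i) (T.act (c i) (o n i) a (y i)))) / (U n i).card -
          ∫ z, f i z ∂(T.μ (c i)) else ∫ z, f i z ∂(T.μ (c i))| ≤ M ^ r := by
      calc _ ≤ ∏ _i ∈ univ.erase i₀, M := by
            refine prod_le_prod (fun i _ => abs_nonneg _) fun i _ => ?_
            split_ifs
            · exact (hn i (y i) (hy i)).trans (hδ1.trans hM1)
            · exact (int_le (f i)).trans (hfM i)
        _ = M ^ (r - 1) := by
            rw [prod_const, card_erase_of_mem (mem_univ i₀), card_univ, Fintype.card_fin]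
        _ ≤ M ^ r := pow_le_pow_right₀ hM1 (Nat.sub_le _ _)
    exact mul_le_mul (hn i₀ (y i₀) (hy i₀)) h3 (prod_nonneg fun i _ => abs_nonneg _) hδ0.le
  refine (sum_le_sum h2).trans ?_
  rw [sum_const, nsmul_eq_mul]
  have h4 : ((univ.erase (fun _ : Fin r => false)).card : ℝ) ≤ 2 ^ r := by
    have h3 : (univ.erase (fun _ : Fin r => false)).card ≤ (univ : Finset (Fin r → Bool)).card :=
      card_le_card (erase_subset _ _)
    rw [card_univ, Fintype.card_fun, Fintype.card_bool, Fintype.card_fin] at h3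
    exact_mod_cast h3
  exact (mul_le_mul_of_nonneg_right h4 (by positivity)).trans hδε

/-- **Equidistribution from independent Galois elements.** -/
theorem equi_sets (hU : ∀ n i, (U n i).Nonempty)
    (hG : ∀ n, ∀ a ∈ Fintype.piFinset (U n), a ∈ HH T (o n))
    (hE : ∀ (i : Fin r) (f : C(T.X (c i), ℝ)) (ε : ℝ), 0 < ε → ∀ᶠ n in atTop, ∀ y ∈ T.pts (c i) (o n i),
      |(∑ a ∈ U n i, f (T.pt (c i) (T.act (c i) (o n i) a y))) / (U n i).card -
        ∫ z, f z ∂(T.μ (c i))| ≤ ε)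
    {x : ℕ → ∀ i, T.P (c i)} (hx : ∀ n, x n ∈ Pts T c (o n)) : T.Equidistributed c x := by
  have hall : ∀ f : C(∀ i, T.X (c i), ℝ), GoodU U f := by
    have hadj : ∀ g ∈ Algebra.adjoin ℝ (T.gens c), GoodU U g := by
      intro g hg
      have h : g ∈ Submodule.span ℝ ((Submonoid.closure (T.gens c) : Submonoid _) : Set _) := by
        rw [← Algebra.adjoin_eq_span]
        exact hg
      clear hg
      induction h using Submodule.span_induction with
      | mem g hg =>
        obtain ⟨f, rfl⟩ := T.mem_monoid hg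
        exact goodU_prodFun hE f
      | zero =>
        have := goodU_smul 0 (goodU_prodFun hE fun _ => 1)
        rwa [zero_smul] at this
      | add g h _ _ hg hh => exact goodU_add hg hh
      | smul t g _ hg => exact goodU_smul t hg
    intro f
    have h := ContinuousMap.subalgebra_topologicalClosure_eq_top_of_separatesPoints
      (Algebra.adjoin ℝ (T.gens c)) T.separates
    have h1 : f ∈ (Algebra.adjoin ℝ (T.gens c)).topologicalClosure := by
      rw [h]
      exact Algebra.mem_top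
    exact goodU_closure hU (S := (Algebra.adjoin ℝ (T.gens c) : Set _)) hadj
      (by rw [← Subalgebra.topologicalClosure_coe]; exact h1)
  intro f
  rw [Metric.tendsto_atTop]
  intro ε hε
  obtain ⟨N, hN⟩ := Filter.eventually_atTop.1 (hall f (ε / 2) (by positivity))
  refine ⟨N, fun n hn => ?_⟩
  rw [Real.dist_eq]
  have hfin : Finite (MulAction.orbit (Gal F) (x n)) := T.orbit_finite (hx n)
  have hft : Fintype (MulAction.orbit (Gal F) (x n)) := Fintype.ofFinite _
  have hpos : (0 : ℝ) < Fintype.card (MulAction.orbit (Gal F) (x n)) := by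
    have : Nonempty (MulAction.orbit (Gal F) (x n)) := ⟨⟨x n, MulAction.mem_orbit_self _⟩⟩
    exact_mod_cast Fintype.card_pos
  have h1 : |T.orbitAverage c f (x n) - ∫ z, f z ∂(T.ν c)| ≤ ε / 2 := by
    rw [orbitAverage_LU (hU n) (hG n) (hx n)]
    have h2 : (∑ y : MulAction.orbit (Gal F) (x n), LU (U n) f y.1) /
        Fintype.card (MulAction.orbit (Gal F) (x n)) - ∫ z, f z ∂(T.ν c) =
        (∑ y : MulAction.orbit (Gal F) (x n), (LU (U n) f y.1 - ∫ z, f z ∂(T.ν c))) /
        Fintype.card (MulAction.orbit (Gal F) (x n)) := by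
      rw [sum_sub_distrib, sum_const, nsmul_eq_mul, card_univ, sub_div, mul_div_cancel_left₀ _ hpos.ne']
    rw [h2, abs_div, abs_of_pos hpos, div_le_iff₀ hpos]
    refine (abs_sum_le_sum_abs _ _).trans ?_
    refine (sum_le_sum fun y _ => hN n hn y.1 fun i => T.orbit_mem (hx n) y.2 i).trans ?_
    rw [sum_const, nsmul_eq_mul, card_univ, mul_comm]
  exact lt_of_le_of_lt h1 (by linarith)

end Pool.Agent.L0h11.MX
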