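import Pool.Agent.L0h11.MX.Cv

/-!
# Almost all special points
-/

set_option autoImplicit false

namespace Pool.Agent.L0h11.MX

open Finset Pool.Agent.L0h15.PM MeasureTheory Filter

variable {F : Type} [Field F] {T : CMTheory F} {r : ℕ} {c : Fin r → T.Variety}

lemma tr_mem {o : Fin r → T.Order} {x : ∀ i, T.P (c i)} (hx : x ∈ Pts T c o)
    (a : ∀ i, T.Pic (o i)) : tr T o a x ∈ Pts T c o := fun i => act_mem (hx i) (a i)

lemma smul_mem {o : Fin r → T.Order} {x : ∀ i, T.P (c i)} (hx : x ∈ Pts T c o) (σ : Gal F) :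
    σ • x ∈ Pts T c o := fun i => T.gal_mem (c i) (o i) σ _ (hx i)

/-- **The mean deviation of the Galois orbits.** -/
theorem orbit_dev {D : DukeCharacters T} (hc : ∀ i, D.IsCurve (c i)) (f : C(∀ i, T.X (c i), ℝ)) {ε : ℝ}
    (hε : 0 < ε) : ∃ B : ℕ, ∀ o : Fin r → T.Order, (∀ i, B ≤ D.disc (o i)) → ∀ x ∈ Pts T c o,
      ∑ a : ∀ i, T.Pic (o i), |T.orbitAverage c f (tr T o a x) - ∫ z, f z ∂(T.ν c)| ≤
        ε * Fintype.card (∀ i, T.Pic (o i)) := by
  classical
  obtain ⟨B, hB⟩ := good_all hc f (ε / 2 ^ r) (by positivity)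
  refine ⟨B, fun o ho x hx => ?_⟩
  have hp : (0 : ℝ) < Fintype.card (∀ i, T.Pic (o i)) := Pi_pos
  obtain ⟨τ, hτ⟩ := orbit_le (c := c) o f (∫ z, f z ∂(T.ν c))
  refine (sum_le_sum fun a _ => hτ _ (tr_mem hx a)).trans ?_
  rw [sum_comm]
  have h1 : ∀ v ∈ (univ : Finset (Finset (Fin r))),
      ∑ a : ∀ i, T.Pic (o i), |LH o f (τ v • tr T o a x) - ∫ z, f z ∂(T.ν c)| ≤
        ε / 2 ^ r * Fintype.card (∀ i, T.Pic (o i)) := by
    intro v _
    rw [sum_conj hx (τ v) fun z => |LH o f z - ∫ z, f z ∂(T.ν c)|]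
    have h2 := hB o ho _ (smul_mem hx (τ v))
    unfold dev at h2
    rwa [div_le_iff₀ hp] at h2
  refine (sum_le_sum h1).trans ?_
  rw [sum_const, card_univ, Fintype.card_finset, Fintype.card_fin, nsmul_eq_mul]
  push_cast
  have h3 : (2 : ℝ) ^ r * (ε / 2 ^ r * Fintype.card (∀ i, T.Pic (o i))) =
      ε * Fintype.card (∀ i, T.Pic (o i)) := by field_simp
  rw [h3]

/-- Markov's inequality -/
lemma markov {V : Type} [Fintype V] (g : V → ℝ) (hg : ∀ a, 0 ≤ g a) {t : ℝ}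
    (S : Finset V) (hS : ∀ a ∈ S, t ≤ g a) : t * S.card ≤ ∑ a, g a := by
  calc t * S.card = ∑ _a ∈ S, t := by rw [sum_const, nsmul_eq_mul, mul_comm]
    _ ≤ ∑ a ∈ S, g a := sum_le_sum hS
    _ ≤ ∑ a, g a := sum_le_univ_sum_of_nonneg hg

/-- **Almost all translates.** -/
theorem main1 {D : DukeCharacters T} (hc : ∀ i, D.IsCurve (c i)) (f : C(∀ i, T.X (c i), ℝ)) {ε : ℝ}
    (hε : 0 < ε) : ∃ B : ℕ, ∀ o : Fin r → T.Order, (∀ i, B ≤ D.disc (o i)) → ∀ x ∈ Pts T c o,
      ((Set.ncard {a : ∀ i, T.Pic (o i) |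
        ε ≤ |T.orbitAverage c f (tr T o a x) - ∫ z, f z ∂(T.ν c)|} : ℕ) : ℝ) ≤
        ε * Fintype.card (∀ i, T.Pic (o i)) := by
  classical
  obtain ⟨B, hB⟩ := orbit_dev hc f (ε := ε ^ 2) (by positivity)
  refine ⟨B, fun o ho x hx => ?_⟩
  have h1 := hB o ho x hx
  set S : Finset (∀ i, T.Pic (o i)) := univ.filter fun a =>
    ε ≤ |T.orbitAverage c f (tr T o a x) - ∫ z, f z ∂(T.ν c)| with hS
  have h2 : {a : ∀ i, T.Pic (o i) | ε ≤ |T.orbitAverage c f (tr T o a x) - ∫ z, f z ∂(T.ν c)|} = ↑S := by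
    ext a
    rw [mem_coe, hS, mem_filter]
    exact (and_iff_right (mem_univ _)).symm
  rw [h2, Set.ncard_coe_finset]
  have h3 := markov (fun a : ∀ i, T.Pic (o i) => |T.orbitAverage c f (tr T o a x) - ∫ z, f z ∂(T.ν c)|)
    (fun a => abs_nonneg _) S (fun a ha => (mem_filter.1 ha).2)
  have h4 : ε * (S.card : ℝ) ≤ ε * (ε * Fintype.card (∀ i, T.Pic (o i))) := by
    refine h3.trans (h1.trans (le_of_eq ?_))
    ring
  exact le_of_mul_le_mul_left h4 hε

/-- the average over a set -/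
lemma orbitAverage_smul (f : C(∀ i, T.X (c i), ℝ)) (σ : Gal F) (z : ∀ i, T.P (c i)) :
    T.orbitAverage c f (σ • z) = T.orbitAverage c f z := by
  have h : MulAction.orbit (Gal F) (σ • z) = MulAction.orbit (Gal F) z :=
    MulAction.orbit_eq_iff.2 ⟨σ, rfl⟩
  exact congrArg (fun S : Set (∀ i, T.P (c i)) => (∑ᶠ y : S, f fun i => T.pt (c i) (y.1 i)) /
    (Nat.card S : ℝ)) h

/-- **The mixing conjecture for almost all twists.** -/
theorem main3 {D : DukeCharacters T} (hc : ∀ i, D.IsCurve (c i)) (f : C(∀ i, T.X (c i), ℝ)) {ε : ℝ}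
    (hε : 0 < ε) : ∃ B : ℕ, ∀ o : T.Order, B ≤ D.disc o → ∀ x ∈ Pts T c (fun _ => o), ∀ i₀ : Fin r,
      (Fintype.card (T.Pic o) : ℝ) * ((Set.ncard {a : Fin r → T.Pic o | a i₀ = 0 ∧
        ε ≤ |T.orbitAverage c f (tr T (fun _ => o) a x) - ∫ z, f z ∂(T.ν c)|} : ℕ) : ℝ) ≤
        ε * Fintype.card (Fin r → T.Pic o) := by
  classical
  obtain ⟨B, hB⟩ := main1 hc f hε
  refine ⟨B, fun o ho x hx i₀ => ?_⟩
  refine le_trans ?_ (hB (fun _ => o) (fun _ => ho) x hx)
  set Bad : Set (Fin r → T.Pic o) := {a : Fin r → T.Pic o |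
    ε ≤ |T.orbitAverage c f (tr T (fun _ => o) a x) - ∫ z, f z ∂(T.ν c)|} with hBad
  have hinv : ∀ (u : T.Pic o) (a : Fin r → T.Pic o), a ∈ Bad → (a + fun _ => u) ∈ Bad := by
    intro u a ha
    obtain ⟨σ, hσ, rfl⟩ := T.art_surj o u
    have h1 : tr T (fun _ => o) (a + fun _ => T.art o σ) x = σ • tr T (fun _ => o) a x := by
      funext i
      show T.act (c i) o (a i + T.art o σ) (x i) = σ • T.act (c i) o (a i) (x i)
      rw [T.art_act (c i) o σ _ hσ (act_mem (hx i) (a i)), act_add (hx i), add_comm]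
    rw [hBad, Set.mem_ofPred_eq] at ha ⊢
    rw [h1, orbitAverage_smul]
    exact ha
  set S₀ : Finset (Fin r → T.Pic o) := univ.filter fun a => a i₀ = 0 ∧ a ∈ Bad with hS₀
  set S : Finset (Fin r → T.Pic o) := univ.filter fun a => a ∈ Bad with hS
  have h2 : {a : Fin r → T.Pic o | a i₀ = 0 ∧
      ε ≤ |T.orbitAverage c f (tr T (fun _ => o) a x) - ∫ z, f z ∂(T.ν c)|} = ↑S₀ := by
    ext a
    rw [mem_coe, hS₀, mem_filter]
    exact (and_iff_right (mem_univ _)).symm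
  have h3 : Bad = ↑S := by
    ext a
    rw [mem_coe, hS, mem_filter]
    exact (and_iff_right (mem_univ _)).symm
  have h4 : (Set.ncard Bad : ℕ) = S.card := by
    conv_lhs => rw [h3]
    exact Set.ncard_coe_finset _
  rw [h2, Set.ncard_coe_finset]
  have h5 : Fintype.card (T.Pic o) * S₀.card ≤ S.card := by
    rw [← card_univ, ← card_product]
    refine card_le_card_of_injOn (fun p => p.2 + fun _ => p.1) ?_ ?_
    · rintro ⟨u, a⟩ hp
      rw [mem_coe, mem_product] at hp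
      rw [mem_coe, hS, mem_filter]
      exact ⟨mem_univ _, hinv u a (mem_filter.1 hp.2).2.2⟩
    · rintro ⟨u, a⟩ hp ⟨u', a'⟩ hp' heq
      rw [mem_coe, mem_product] at hp hp'
      have h6 : (a + fun _ => u) = a' + fun _ => u' := heq
      have h7 := congrFun h6 i₀
      have h8 : a i₀ = 0 := (mem_filter.1 hp.2).2.1
      have h9 : a' i₀ = 0 := (mem_filter.1 hp'.2).2.1
      rw [Pi.add_apply, Pi.add_apply, h8, h9, zero_add, zero_add] at h7
      have h10 : u = u' := h7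
      subst h10
      rw [add_left_inj] at h6
      rw [h6]
  calc (Fintype.card (T.Pic o) : ℝ) * (S₀.card : ℝ) ≤ (S.card : ℝ) := by exact_mod_cast h5
    _ = ((Set.ncard Bad : ℕ) : ℝ) := by rw [h4]

/-- counting points by translates -/
theorem count_le {o : Fin r → T.Order} {E : Set (∀ i, T.P (c i))} (hE : E ⊆ Pts T c o) {t : ℝ}
    (h : ∀ x ∈ Pts T c o, ((Set.ncard {a : ∀ i, T.Pic (o i) | tr T o a x ∈ E} : ℕ) : ℝ) ≤
      t * Fintype.card (∀ i, T.Pic (o i))) :
    ((Set.ncard E : ℕ) : ℝ) ≤ t * (Set.ncard (Pts T c o) : ℕ) := by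
  classical
  have hp : (0 : ℝ) < Fintype.card (∀ i, T.Pic (o i)) := Pi_pos
  have hfin := pts_finite T c o
  have hEfin := hfin.subset hE
  set P : Finset (∀ i, T.P (c i)) := hfin.toFinset with hP
  have hPm : ∀ x, x ∈ P ↔ x ∈ Pts T c o := fun x => Set.Finite.mem_toFinset hfin
  have h1 : (Set.ncard (Pts T c o) : ℕ) = P.card := Set.ncard_eq_toFinset_card _ hfin
  have h2 : (Set.ncard E : ℕ) = (P.filter fun x => x ∈ E).card := by
    rw [← Set.ncard_coe_finset]
    congr 1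
    ext x
    rw [mem_coe, mem_filter, hPm]
    exact ⟨fun hx => ⟨hE hx, hx⟩, fun hx => hx.2⟩
  have h3 : ∀ x, (Set.ncard {a : ∀ i, T.Pic (o i) | tr T o a x ∈ E} : ℕ) =
      ∑ a : ∀ i, T.Pic (o i), if tr T o a x ∈ E then 1 else 0 := by
    intro x
    rw [sum_boole, ← Set.ncard_coe_finset]
    congr 1
    ext a
    rw [mem_coe, mem_filter]
    exact (and_iff_right (mem_univ _)).symm
  have h4 : ∀ a : ∀ i, T.Pic (o i), (∑ x ∈ P, if tr T o a x ∈ E then 1 else 0) =
      (P.filter fun x => x ∈ E).card := by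
    intro a
    rw [card_filter]
    refine sum_bij' (fun x _ => tr T o a x) (fun x _ => tr T o (-a) x) ?_ ?_ ?_ ?_ ?_
    · exact fun x hx => (hPm _).2 (tr_mem ((hPm x).1 hx) a)
    · exact fun x hx => (hPm _).2 (tr_mem ((hPm x).1 hx) (-a))
    · intro x hx
      funext i
      show T.act (c i) (o i) (-a i) (T.act (c i) (o i) (a i) (x i)) = x i
      rw [act_add ((hPm x).1 hx i), neg_add_cancel]
      have h5 := T.art_act (c i) (o i) 1 (x i) (T.K (o i)).one_mem ((hPm x).1 hx i)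
      rw [T.art_one, one_smul] at h5
      exact h5.symm
    · intro x hx
      funext i
      show T.act (c i) (o i) (a i) (T.act (c i) (o i) (-a i) (x i)) = x i
      rw [act_add ((hPm x).1 hx i), add_neg_cancel]
      have h5 := T.art_act (c i) (o i) 1 (x i) (T.K (o i)).one_mem ((hPm x).1 hx i)
      rw [T.art_one, one_smul] at h5
      exact h5.symm
    · intro x _
      rfl
  have h5 : ∑ x ∈ P, (Set.ncard {a : ∀ i, T.Pic (o i) | tr T o a x ∈ E} : ℕ) =
      Fintype.card (∀ i, T.Pic (o i)) * (P.filter fun x => x ∈ E).card := by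
    rw [sum_congr rfl fun x _ => h3 x, sum_comm, sum_congr rfl fun a _ => h4 a, sum_const, card_univ,
      smul_eq_mul]
  have h6 : (Fintype.card (∀ i, T.Pic (o i)) : ℝ) * ((P.filter fun x => x ∈ E).card : ℝ) ≤
      Fintype.card (∀ i, T.Pic (o i)) * (t * P.card) := by
    have h7 : (Fintype.card (∀ i, T.Pic (o i)) : ℝ) * ((P.filter fun x => x ∈ E).card : ℝ) =
        ∑ x ∈ P, ((Set.ncard {a : ∀ i, T.Pic (o i) | tr T o a x ∈ E} : ℕ) : ℝ) := by
      rw [← Nat.cast_mul, ← h5, Nat.cast_sum]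
    rw [h7]
    refine (sum_le_sum fun x hx => h x ((hPm x).1 hx)).trans (le_of_eq ?_)
    rw [sum_const, nsmul_eq_mul]
    ring
  rw [h1, h2]
  exact le_of_mul_le_mul_left h6 hp

/-- the discriminants tend to infinity -/
theorem disc_tendsto (D : DukeCharacters T) {x : ℕ → ∀ i, T.P (c i)} {o : ℕ → Fin r → T.Order}
    (hx : ∀ n, x n ∈ Pts T c (o n)) (hs : ∀ i p, ∀ᶠ n in atTop, x n i ≠ p) (i : Fin r) :
    Tendsto (fun n => D.disc (o n i)) atTop atTop := by
  rw [tendsto_atTop]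
  intro B
  have hfin : (⋃ o ∈ {o | D.disc o ≤ B}, T.pts (c i) o).Finite :=
    (D.finite_disc B).biUnion fun o _ => T.pts_finite (c i) o
  have h : ∀ᶠ n in atTop, ∀ p ∈ (⋃ o ∈ {o | D.disc o ≤ B}, T.pts (c i) o), x n i ≠ p :=
    (Filter.eventually_all_finite hfin).2 fun p _ => hs i p
  filter_upwards [h] with n hn
  by_contra hlt
  push Not at hlt
  exact hn (x n i) (Set.mem_biUnion (show o n i ∈ {o | D.disc o ≤ B} from hlt.le) (hx n i)) rfl

/-- **The exceptional sets.** -/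
theorem main2 (hr : 0 < r) {D : DukeCharacters T} (hc : ∀ i, D.IsCurve (c i)) :
    ∃ E : (Fin r → T.Order) → Set (∀ i, T.P (c i)), (∀ o, E o ⊆ Pts T c o) ∧
      (∀ ε : ℝ, 0 < ε → ∃ B : ℕ, ∀ o, (∀ i, B ≤ D.disc (o i)) →
        ((Set.ncard (E o) : ℕ) : ℝ) ≤ ε * (Set.ncard (Pts T c o) : ℕ)) ∧
      ∀ (o : ℕ → Fin r → T.Order) (x : ℕ → ∀ i, T.P (c i)), (∀ n, x n ∈ Pts T c (o n)) →
        (∀ n, x n ∉ E (o n)) → (∀ i p, ∀ᶠ n in atTop, x n i ≠ p) → T.Equidistributed c x := by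
  classical
  have hne : Nonempty C(∀ i, T.X (c i), ℝ) := ⟨0⟩
  set f : ℕ → C(∀ i, T.X (c i), ℝ) := TopologicalSpace.denseSeq _ with hf
  have hdense : DenseRange f := TopologicalSpace.denseRange_denseSeq _
  set g : ℕ → (∀ i, T.P (c i)) → ℝ := fun j z => |T.orbitAverage c (f j) z - ∫ z, f j z ∂(T.ν c)| with hg
  choose B hB using fun (k j : ℕ) => orbit_dev hc (f j) (ε := 1 / ((k : ℝ) + 1) ^ 3) (by positivity)
  set b : ℕ → ℕ := fun k => k + ∑ j ∈ range k, B k j with hb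
  set κ : (Fin r → T.Order) → ℕ := fun o =>
    Nat.findGreatest (fun k => ∀ i, b k ≤ D.disc (o i)) (∑ i, D.disc (o i)) with hκ
  have hκ1 : ∀ o k, (∀ i, b k ≤ D.disc (o i)) → k ≤ κ o := by
    intro o k hk
    refine Nat.le_findGreatest ?_ hk
    have h1 : k ≤ b k := Nat.le_add_right _ _
    have h2 : D.disc (o ⟨0, hr⟩) ≤ ∑ i, D.disc (o i) :=
      single_le_sum (f := fun i => D.disc (o i)) (fun i _ => Nat.zero_le _) (mem_univ _)
    exact (h1.trans (hk ⟨0, hr⟩)).trans h2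
  have hκ2 : ∀ o, κ o ≠ 0 → ∀ i, b (κ o) ≤ D.disc (o i) := by
    intro o h0
    exact Nat.findGreatest_of_ne_zero rfl h0
  set E : (Fin r → T.Order) → Set (∀ i, T.P (c i)) := fun o =>
    {z | z ∈ Pts T c o ∧ ∃ j < κ o, 1 / ((κ o : ℝ) + 1) ≤ g j z} with hE
  have hsmall : ∀ o, ((Set.ncard (E o) : ℕ) : ℝ) ≤ 1 / ((κ o : ℝ) + 1) * (Set.ncard (Pts T c o) : ℕ) := by
    intro o
    refine count_le (fun z hz => hz.1) fun x hx => ?_
    set k := κ o with hk
    have hk0 : (0 : ℝ) < (k : ℝ) + 1 := by positivity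
    have hp : (0 : ℝ) < Fintype.card (∀ i, T.Pic (o i)) := Pi_pos
    set S : ℕ → Finset (∀ i, T.Pic (o i)) := fun j =>
      univ.filter fun a => 1 / ((k : ℝ) + 1) ≤ g j (tr T o a x) with hS
    have h1 : {a : ∀ i, T.Pic (o i) | tr T o a x ∈ E o} ⊆ ↑((range k).biUnion S) := by
      rintro a ⟨-, j, hj, hja⟩
      rw [mem_coe, mem_biUnion]
      exact ⟨j, mem_range.2 hj, mem_filter.2 ⟨mem_univ _, hja⟩⟩
    have h2 := Set.ncard_le_ncard h1 (Finset.finite_toSet _)
    rw [Set.ncard_coe_finset] at h2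
    have h3 := h2.trans card_biUnion_le
    have h4 : ∀ j ∈ range k, ((S j).card : ℝ) ≤
        1 / ((k : ℝ) + 1) ^ 2 * Fintype.card (∀ i, T.Pic (o i)) := by
      intro j hj
      have hk1 : k ≠ 0 := by
        rintro h0
        rw [h0, range_zero] at hj
        exact absurd hj (notMem_empty j)
      have h5 : ∀ i, B k j ≤ D.disc (o i) := by
        intro i
        refine le_trans ?_ (hκ2 o hk1 i)
        show B k j ≤ k + ∑ j ∈ range k, B k j
        exact (single_le_sum (f := fun j => B k j) (fun _ _ => Nat.zero_le _) hj).trans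
          (Nat.le_add_left _ _)
      have h6 := hB k j o h5 x hx
      have h7 := markov (fun a : ∀ i, T.Pic (o i) => g j (tr T o a x)) (fun a => abs_nonneg _) (S j)
        (fun a ha => (mem_filter.1 ha).2)
      have h8 : 1 / ((k : ℝ) + 1) * ((S j).card : ℝ) ≤ 1 / ((k : ℝ) + 1) *
          (1 / ((k : ℝ) + 1) ^ 2 * Fintype.card (∀ i, T.Pic (o i))) := by
        refine h7.trans (h6.trans (le_of_eq ?_))
        field_simp
      exact le_of_mul_le_mul_left h8 (by positivity)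
    have h5 : ((Set.ncard {a : ∀ i, T.Pic (o i) | tr T o a x ∈ E o} : ℕ) : ℝ) ≤
        ∑ j ∈ range k, ((S j).card : ℝ) := by exact_mod_cast h3
    refine h5.trans ((sum_le_sum h4).trans ?_)
    rw [sum_const, card_range, nsmul_eq_mul, ← mul_assoc]
    refine mul_le_mul_of_nonneg_right ?_ hp.le
    rw [mul_one_div, div_le_div_iff₀ (by positivity) hk0]
    nlinarith
  refine ⟨E, fun o z hz => hz.1, fun ε hε => ?_, fun o x hx hxE hs => ?_⟩
  · obtain ⟨k, hk⟩ := exists_nat_gt (1 / ε)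
    refine ⟨b k, fun o ho => (hsmall o).trans ?_⟩
    refine mul_le_mul_of_nonneg_right ?_ (Nat.cast_nonneg _)
    have h1 : (k : ℝ) ≤ κ o := by exact_mod_cast hκ1 o k ho
    rw [div_le_iff₀ (by positivity)]
    rw [div_lt_iff₀ hε] at hk
    nlinarith
  · have hdisc := disc_tendsto D hx hs
    have hκt : ∀ k : ℕ, ∀ᶠ n in atTop, k ≤ κ (o n) := by
      intro k
      have h1 : ∀ᶠ n in atTop, ∀ i, b k ≤ D.disc (o n i) :=
        Filter.eventually_all.2 fun i => (tendsto_atTop.1 (hdisc i)) (b k)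
      filter_upwards [h1] with n hn
      exact hκ1 (o n) k hn
    have hfj : ∀ (j : ℕ) (ε : ℝ), 0 < ε → ∀ᶠ n in atTop, g j (x n) < ε := by
      intro j ε hε
      obtain ⟨k, hk⟩ := exists_nat_gt (1 / ε)
      filter_upwards [hκt (max k (j + 1))] with n hn
      have h1 : j < κ (o n) := lt_of_lt_of_le (Nat.lt_succ_self j) ((le_max_right _ _).trans hn)
      have h2 : k ≤ κ (o n) := (le_max_left _ _).trans hn
      have h3 : ¬ 1 / ((κ (o n) : ℝ) + 1) ≤ g j (x n) := fun hcon => hxE n ⟨hx n, j, h1, hcon⟩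
      push Not at h3
      refine h3.trans_le ?_
      have h4 : (k : ℝ) ≤ κ (o n) := by exact_mod_cast h2
      rw [div_le_iff₀ (by positivity)]
      rw [div_lt_iff₀ hε] at hk
      nlinarith
    intro φ
    rw [Metric.tendsto_atTop]
    intro ε hε
    obtain ⟨j, hj⟩ := hdense.exists_dist_lt φ (ε := ε / 3) (by positivity)
    obtain ⟨N, hN⟩ := Filter.eventually_atTop.1 (hfj j (ε / 3) (by positivity))
    refine ⟨N, fun n hn => ?_⟩
    rw [Real.dist_eq]
    have h1 := hN n hn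
    have h2 : |T.orbitAverage c φ (x n) - T.orbitAverage c (f j) (x n)| ≤ ‖φ - f j‖ := by
      have hfin : Finite (MulAction.orbit (Gal F) (x n)) := T.orbit_finite (hx n)
      have hft : Fintype (MulAction.orbit (Gal F) (x n)) := Fintype.ofFinite _
      have hpos : (0 : ℝ) < Fintype.card (MulAction.orbit (Gal F) (x n)) := by
        have : Nonempty (MulAction.orbit (Gal F) (x n)) := ⟨⟨x n, MulAction.mem_orbit_self _⟩⟩
        exact_mod_cast Fintype.card_pos
      rw [orbitAverage_eq (hx n), orbitAverage_eq (hx n), ← sub_div, ← sum_sub_distrib, abs_div,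
        abs_of_pos hpos, div_le_iff₀ hpos]
      refine (abs_sum_le_sum_abs _ _).trans ?_
      refine (sum_le_sum fun y _ => LH_sub_le (o := o n) φ (f j) y.1).trans ?_
      rw [sum_const, nsmul_eq_mul, card_univ, mul_comm]
    have h3 := T.int_sub_le (f j) φ
    rw [norm_sub_rev] at h3
    rw [dist_eq_norm] at hj
    have h4 : T.orbitAverage c φ (x n) - ∫ z, φ z ∂(T.ν c) =
        (T.orbitAverage c φ (x n) - T.orbitAverage c (f j) (x n)) +
        (T.orbitAverage c (f j) (x n) - ∫ z, f j z ∂(T.ν c)) +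
        ((∫ z, f j z ∂(T.ν c)) - ∫ z, φ z ∂(T.ν c)) := by ring
    have h5 : |T.orbitAverage c (f j) (x n) - ∫ z, f j z ∂(T.ν c)| < ε / 3 := h1
    show |T.orbitAverage c φ (x n) - ∫ z, φ z ∂(T.ν c)| < ε
    rw [h4]
    refine (abs_add_three _ _ _).trans_lt ?_
    linarith

end Pool.Agent.L0h11.MX
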