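import Pool.Agent.L0h11.MX.Mn

/-!
# Almost all special points, power saving
-/

set_option autoImplicit false

namespace Pool.Agent.L0h11.MX

open Finset Pool.Agent.L0h15.PM MeasureTheory Filter

/-- Curves for which the theorem of Duke is known with class group characters and with a power of the
discriminant as error term: for all functions `f` of a dense set (for example the smooth functions which
are constant near every cusp) the sums of `ψ (a) (f (a x) - ∫ f)` over the class group of the order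
are at most `A disc ^ (-η)` times the class number, uniformly for all characters `ψ` of the class group.
Known by subconvexity: Duke, Duke-Friedlander-Iwaniec, Zhang, Michel, Harcos-Michel,
Michel-Venkatesh. -/
structure DukePower {F : Type} [Field F] (T : CMTheory F) where
  /-- the curves -/
  IsCurve : T.Variety → Prop
  /-- the norm of the relative discriminant -/
  disc : T.Order → ℕ
  finite_disc : ∀ B : ℕ, {o | disc o ≤ B}.Finite
  /-- the exponent -/
  η : ℝ
  η_pos : 0 < η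
  /-- the dense set of functions -/
  smooth : ∀ C, Set C(T.X C, ℝ)
  dense : ∀ C, IsCurve C → Dense (smooth C)
  equi : ∀ C, IsCurve C → ∀ f ∈ smooth C, ∃ A : ℝ, ∀ o, ∀ x ∈ T.pts C o, ∀ ψ : AddChar (T.Pic o) ℂ,
    ‖∑ a : T.Pic o, ψ a * ((f (T.pt C (T.act C o a x)) - ∫ z, f z ∂(T.μ C) : ℝ) : ℂ)‖ ≤
      A * (disc o : ℝ) ^ (-η) * Fintype.card (T.Pic o)

variable {F : Type} [Field F] {T : CMTheory F} {r : ℕ} {c : Fin r → T.Variety}

/-- the sum of the `disc (o i) ^ (- η / 2)` -/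
noncomputable def DukePower.size (D : DukePower T) (o : Fin r → T.Order) : ℝ :=
  ∑ i, (D.disc (o i) : ℝ) ^ (-(D.η / 2))

lemma size_nonneg (D : DukePower T) (o : Fin r → T.Order) : 0 ≤ D.size o :=
  sum_nonneg fun _ _ => Real.rpow_nonneg (Nat.cast_nonneg _) _

lemma le_size (D : DukePower T) (o : Fin r → T.Order) (i : Fin r) :
    (D.disc (o i) : ℝ) ^ (-(D.η / 2)) ≤ D.size o :=
  single_le_sum (f := fun i => (D.disc (o i) : ℝ) ^ (-(D.η / 2)))
    (fun _ _ => Real.rpow_nonneg (Nat.cast_nonneg _) _) (mem_univ i)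

/-- the mean deviations are small -/
def PGood (D : DukePower T) (f : C(∀ i, T.X (c i), ℝ)) : Prop :=
  ∃ A : ℝ, ∀ o : Fin r → T.Order, ∀ x ∈ Pts T c o, dev o f x ≤ A * D.size o

variable {D : DukePower T}

lemma pgood_add {f g : C(∀ i, T.X (c i), ℝ)} (hf : PGood D f) (hg : PGood D g) :
    PGood D (f + g) := by
  obtain ⟨A, hA⟩ := hf
  obtain ⟨A', hA'⟩ := hg
  refine ⟨A + A', fun o x hx => (dev_add o f g x).trans ?_⟩
  rw [add_mul]
  exact add_le_add (hA o x hx) (hA' o x hx)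

lemma pgood_smul {f : C(∀ i, T.X (c i), ℝ)} (t : ℝ) (hf : PGood D f) : PGood D (t • f) := by
  obtain ⟨A, hA⟩ := hf
  refine ⟨|t| * A, fun o x hx => ?_⟩
  rw [dev_smul, mul_assoc]
  exact mul_le_mul_of_nonneg_left (hA o x hx) (abs_nonneg t)

/-- **Products of functions of one variable.** -/
theorem pgood_prodFun (hc : ∀ i, D.IsCurve (c i)) (f : ∀ i, C(T.X (c i), ℝ))
    (hf : ∀ i, f i ∈ D.smooth (c i)) : PGood D (T.prodFun f) := by
  classical
  set M : ℝ := 1 + 2 * ∑ i, ‖f i‖ with hM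
  have hs0 : 0 ≤ ∑ i, ‖f i‖ := sum_nonneg fun i _ => norm_nonneg _
  have hM1 : 1 ≤ M := by linarith
  have hM0 : 0 < M := by linarith
  have hfM : ∀ i, 2 * ‖f i‖ ≤ M := by
    intro i
    have := single_le_sum (f := fun i => ‖f i‖) (fun i _ => norm_nonneg _) (mem_univ i)
    linarith
  choose A hA using fun i => D.equi (c i) (hc i) (f i) (hf i)
  set A₀ : ℝ := ∑ i, |A i| with hA₀
  have hA₀0 : 0 ≤ A₀ := sum_nonneg fun i _ => abs_nonneg _
  have hAi : ∀ i, A i ≤ A₀ := fun i =>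
    (le_abs_self _).trans (single_le_sum (f := fun i => |A i|) (fun i _ => abs_nonneg _) (mem_univ i))
  set K : ℝ := Real.sqrt (2 ^ r * A₀ * M ^ (2 * r)) with hK
  have hK0 : 0 ≤ K := Real.sqrt_nonneg _
  have hK2 : K ^ 2 = 2 ^ r * A₀ * M ^ (2 * r) := Real.sq_sqrt (by positivity)
  refine ⟨2 ^ r * K, fun o x hx => ?_⟩
  set m : Fin r → ℝ := fun i => ∫ z, f i z ∂(T.μ (c i)) with hm
  have hp : (0 : ℝ) < Fintype.card (∀ i, T.Pic (o i)) := Pi_pos
  have hH : (0 : ℝ) < (HH T o).card := HH_pos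
  have hsz := size_nonneg D o
  set φ : (Fin r → Bool) → ∀ i, T.Pic (o i) → ℝ := fun p i a =>
    if p i = true then f i (T.pt (c i) (T.act (c i) (o i) a (x i))) - m i else m i with hφ
  have hφM : ∀ p i a, |φ p i a| ≤ M := by
    intro p i a
    have h1 : |f i (T.pt (c i) (T.act (c i) (o i) a (x i)))| ≤ ‖f i‖ := (f i).norm_coe_le_norm _
    have h2 : |m i| ≤ ‖f i‖ := int_le (f i)
    have h3 := hfM i
    have h4 := norm_nonneg (f i)
    rw [hφ]
    simp only
    split_ifs
    · refine (abs_sub _ _).trans ?_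
      linarith
    · linarith
  have hterm : ∀ p ∈ univ.erase (fun _ : Fin r => false),
      ∑ a : ∀ i, T.Pic (o i), |∑ h ∈ HH T o, ∏ i, φ p i ((h + a) i)| ≤
        K * D.size o * ((HH T o).card * Fintype.card (∀ i, T.Pic (o i))) := by
    intro p hp'
    obtain ⟨i₀, hi₀⟩ : ∃ i₀, p i₀ = true := by
      by_contra hcon
      push Not at hcon
      refine (mem_erase.1 hp').1 (funext fun i => ?_)
      exact Bool.eq_false_iff.2 (hcon i)
    set q : ℝ := (D.disc (o i₀) : ℝ) ^ (-(D.η / 2)) with hq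
    have hq0 : 0 ≤ q := Real.rpow_nonneg (Nat.cast_nonneg _) _
    have hq2 : (D.disc (o i₀) : ℝ) ^ (-D.η) = q ^ 2 := by
      rw [hq, ← Real.rpow_natCast, ← Real.rpow_mul (Nat.cast_nonneg _)]
      congr 1
      push_cast
      ring
    have h1 := sum_abs_le (HH T o) (fun a ha b hb => HH_sub ha hb) i₀ (κ := 2 ^ r) (δ := A₀ * q ^ 2)
      (M := M) (by positivity) (by positivity) hM1 (fun g hg => proj_le i₀ g hg) (φ p) (hφM p) (by
        intro ψ
        have h2 := hA i₀ (o i₀) (x i₀) (hx i₀) ψ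
        unfold hat
        refine le_trans (le_of_eq ?_) (h2.trans ?_)
        · congr 1
          refine sum_congr rfl fun a _ => ?_
          rw [hφ]
          simp only
          rw [if_pos hi₀]
        · rw [hq2]
          refine mul_le_mul_of_nonneg_right ?_ (Nat.cast_nonneg _)
          exact mul_le_mul_of_nonneg_right (hAi i₀) (sq_nonneg q))
    have h2 : 2 ^ r * (A₀ * q ^ 2) * M ^ (2 * r) = (K * q) ^ 2 := by
      rw [mul_pow, hK2]
      ring
    rw [h2, ← mul_pow] at h1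
    refine (abs_le_of_sq_le_sq' h1 (by positivity)).2.trans ?_
    refine mul_le_mul_of_nonneg_right ?_ (by positivity)
    exact mul_le_mul_of_nonneg_left (le_size D o i₀) hK0
  have hdev : ∀ a : ∀ i, T.Pic (o i), LH o (T.prodFun f) (tr T o a x) - ∫ z, T.prodFun f z ∂(T.ν c) =
      (∑ p ∈ univ.erase (fun _ : Fin r => false), ∑ h ∈ HH T o, ∏ i, φ p i ((h + a) i)) /
        (HH T o).card := by
    intro a
    rw [int_prodFun, sum_comm]
    have h1 : ∀ h ∈ HH T o, ∑ p ∈ univ.erase (fun _ : Fin r => false), ∏ i, φ p i ((h + a) i) =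
        (T.prodFun f fun i => T.pt (c i) (tr T o h (tr T o a x) i)) - ∏ i, m i := by
      intro h _
      rw [T.prodFun_apply, expand]
      refine sum_congr rfl fun p _ => prod_congr rfl fun i _ => ?_
      have h2 : tr T o h (tr T o a x) i = T.act (c i) (o i) ((h + a) i) (x i) := act_add (hx i) _ _
      rw [h2]
    rw [sum_congr rfl h1, sum_sub_distrib, sum_const, nsmul_eq_mul, sub_div, mul_div_cancel_left₀ _ HH_pos.ne']
    rfl
  unfold dev
  rw [div_le_iff₀ hp]
  have h1 : ∀ a ∈ (univ : Finset (∀ i, T.Pic (o i))),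
      |LH o (T.prodFun f) (tr T o a x) - ∫ z, T.prodFun f z ∂(T.ν c)| ≤
        (∑ p ∈ univ.erase (fun _ : Fin r => false), |∑ h ∈ HH T o, ∏ i, φ p i ((h + a) i)|) /
          (HH T o).card := by
    intro a _
    rw [hdev a, abs_div, abs_of_pos hH]
    exact div_le_div_of_nonneg_right (abs_sum_le_sum_abs _ _) hH.le
  refine (sum_le_sum h1).trans ?_
  rw [← sum_div, sum_comm, div_le_iff₀ hH]
  refine (sum_le_sum hterm).trans ?_
  rw [sum_const, nsmul_eq_mul]
  have h2 : ((univ.erase (fun _ : Fin r => false)).card : ℝ) ≤ 2 ^ r := by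
    have h3 : (univ.erase (fun _ : Fin r => false)).card ≤ (univ : Finset (Fin r → Bool)).card :=
      card_le_card (erase_subset _ _)
    rw [card_univ, Fintype.card_fun, Fintype.card_bool, Fintype.card_fin] at h3
    exact_mod_cast h3
  calc _ ≤ (2 : ℝ) ^ r * (K * D.size o * ((HH T o).card * Fintype.card (∀ i, T.Pic (o i)))) :=
        mul_le_mul_of_nonneg_right h2 (by positivity)
    _ = 2 ^ r * K * D.size o * Fintype.card (∀ i, T.Pic (o i)) * (HH T o).card := by ring

lemma continuous_prodFun : Continuous fun f : ∀ i, C(T.X (c i), ℝ) => T.prodFun f := by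
  unfold CMTheory.prodFun
  refine continuous_finsetProd _ fun i _ => ?_
  exact (ContinuousMap.continuous_precomp _).comp (continuous_apply i)

/-- **The good functions are dense.** -/
theorem pgood_dense (hc : ∀ i, D.IsCurve (c i)) (f : C(∀ i, T.X (c i), ℝ)) :
    f ∈ closure {g : C(∀ i, T.X (c i), ℝ) | PGood D g} := by
  -- the closure as a submodule
  have h0 : PGood D (0 : C(∀ i, T.X (c i), ℝ)) := by
    refine ⟨0, fun o x hx => ?_⟩
    rw [zero_mul]
    unfold dev
    have h1 : ∀ a : ∀ i, T.Pic (o i), |LH o (0 : C(∀ i, T.X (c i), ℝ)) (tr T o a x) -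
        ∫ z, (0 : C(∀ i, T.X (c i), ℝ)) z ∂(T.ν c)| = 0 := by
      intro a
      simp [LH]
    rw [sum_congr rfl fun a _ => h1 a, sum_const_zero, zero_div]
  let W : Submodule ℝ C(∀ i, T.X (c i), ℝ) :=
    { carrier := {g | PGood D g}
      zero_mem' := h0
      add_mem' := fun hf hg => pgood_add hf hg
      smul_mem' := fun t f hf => pgood_smul t hf }
  have hW : (closure {g : C(∀ i, T.X (c i), ℝ) | PGood D g}) =
      (W.topologicalClosure : Set C(∀ i, T.X (c i), ℝ)) := (Submodule.topologicalClosure_coe W).symm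
  rw [hW]
  have hprod : ∀ f : ∀ i, C(T.X (c i), ℝ), T.prodFun f ∈ W.topologicalClosure := by
    intro f
    have h1 : f ∈ closure (Set.univ.pi fun i => D.smooth (c i)) := by
      rw [closure_pi_set]
      exact fun i _ => D.dense (c i) (hc i) (f i)
    have h2 := image_closure_subset_closure_image (continuous_prodFun (T := T) (c := c))
      (Set.mem_image_of_mem _ h1)
    refine closure_mono ?_ h2
    rintro _ ⟨g, hg, rfl⟩
    exact pgood_prodFun hc g fun i => hg i (Set.mem_univ i)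
  have hadj : (Algebra.adjoin ℝ (T.gens c) : Set C(∀ i, T.X (c i), ℝ)) ⊆ W.topologicalClosure := by
    intro g hg
    have h : g ∈ Submodule.span ℝ ((Submonoid.closure (T.gens c) : Submonoid _) : Set _) := by
      rw [← Algebra.adjoin_eq_span]
      exact hg
    refine (Submodule.span_le.2 ?_) h
    intro g hg
    obtain ⟨f, rfl⟩ := T.mem_monoid hg
    exact hprod f
  have h := ContinuousMap.subalgebra_topologicalClosure_eq_top_of_separatesPoints
    (Algebra.adjoin ℝ (T.gens c)) T.separates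
  have h1 : f ∈ (Algebra.adjoin ℝ (T.gens c)).topologicalClosure := by
    rw [h]
    exact Algebra.mem_top
  rw [← SetLike.mem_coe, Subalgebra.topologicalClosure_coe] at h1
  exact closure_minimal hadj W.isClosed_topologicalClosure h1

/-- the mean deviation of the Galois orbits -/
theorem porbit_dev {f : C(∀ i, T.X (c i), ℝ)} (hf : PGood D f) :
    ∃ A : ℝ, 0 ≤ A ∧ ∀ o : Fin r → T.Order, ∀ x ∈ Pts T c o,
      ∑ a : ∀ i, T.Pic (o i), |T.orbitAverage c f (tr T o a x) - ∫ z, f z ∂(T.ν c)| ≤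
        A * D.size o * Fintype.card (∀ i, T.Pic (o i)) := by
  classical
  obtain ⟨A, hA⟩ := hf
  refine ⟨2 ^ r * |A|, by positivity, fun o x hx => ?_⟩
  have hp : (0 : ℝ) < Fintype.card (∀ i, T.Pic (o i)) := Pi_pos
  obtain ⟨τ, hτ⟩ := orbit_le (c := c) o f (∫ z, f z ∂(T.ν c))
  refine (sum_le_sum fun a _ => hτ _ (tr_mem hx a)).trans ?_
  rw [sum_comm]
  have h1 : ∀ v ∈ (univ : Finset (Finset (Fin r))),
      ∑ a : ∀ i, T.Pic (o i), |LH o f (τ v • tr T o a x) - ∫ z, f z ∂(T.ν c)| ≤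
        |A| * D.size o * Fintype.card (∀ i, T.Pic (o i)) := by
    intro v _
    rw [sum_conj hx (τ v) fun z => |LH o f z - ∫ z, f z ∂(T.ν c)|]
    have h2 := hA o _ (smul_mem hx (τ v))
    unfold dev at h2
    rw [div_le_iff₀ hp] at h2
    refine h2.trans (mul_le_mul_of_nonneg_right ?_ hp.le)
    exact mul_le_mul_of_nonneg_right (le_abs_self A) (size_nonneg D o)
  refine (sum_le_sum h1).trans (le_of_eq ?_)
  rw [sum_const, card_univ, Fintype.card_finset, Fintype.card_fin, nsmul_eq_mul]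
  push_cast
  ring

lemma orbit_sub_le {o : Fin r → T.Order} {z : ∀ i, T.P (c i)} (hz : z ∈ Pts T c o)
    (f g : C(∀ i, T.X (c i), ℝ)) :
    |T.orbitAverage c f z - T.orbitAverage c g z| ≤ ‖f - g‖ := by
  have hfin : Finite (MulAction.orbit (Gal F) z) := T.orbit_finite hz
  have hft : Fintype (MulAction.orbit (Gal F) z) := Fintype.ofFinite _
  have hpos : (0 : ℝ) < Fintype.card (MulAction.orbit (Gal F) z) := by
    have : Nonempty (MulAction.orbit (Gal F) z) := ⟨⟨z, MulAction.mem_orbit_self _⟩⟩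
    exact_mod_cast Fintype.card_pos
  rw [orbitAverage_eq hz, orbitAverage_eq hz, ← sub_div, ← sum_sub_distrib, abs_div,
    abs_of_pos hpos, div_le_iff₀ hpos]
  refine (abs_sum_le_sum_abs _ _).trans ?_
  refine (sum_le_sum fun y _ => LH_sub_le (o := o) f g y.1).trans ?_
  rw [sum_const, nsmul_eq_mul, card_univ, mul_comm]

/-- **Almost all translates, with power saving.** -/
theorem pmain1 (hc : ∀ i, D.IsCurve (c i)) (f : C(∀ i, T.X (c i), ℝ)) {ε : ℝ} (hε : 0 < ε) :
    ∃ A : ℝ, 0 ≤ A ∧ ∀ o : Fin r → T.Order, ∀ x ∈ Pts T c o,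
      ((Set.ncard {a : ∀ i, T.Pic (o i) |
        ε ≤ |T.orbitAverage c f (tr T o a x) - ∫ z, f z ∂(T.ν c)|} : ℕ) : ℝ) ≤
        A * D.size o * Fintype.card (∀ i, T.Pic (o i)) := by
  classical
  obtain ⟨g, hg, hfg⟩ := Metric.mem_closure_iff.1 (pgood_dense hc f) (ε / 4) (by positivity)
  obtain ⟨A, hA0, hA⟩ := porbit_dev hg
  refine ⟨A * (2 / ε), by positivity, fun o x hx => ?_⟩
  have h1 := hA o x hx
  set S : Finset (∀ i, T.Pic (o i)) := univ.filter fun a =>
    ε ≤ |T.orbitAverage c f (tr T o a x) - ∫ z, f z ∂(T.ν c)| with hS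
  have h2 : {a : ∀ i, T.Pic (o i) | ε ≤ |T.orbitAverage c f (tr T o a x) - ∫ z, f z ∂(T.ν c)|} = ↑S := by
    ext a
    rw [mem_coe, hS, mem_filter]
    exact (and_iff_right (mem_univ _)).symm
  rw [h2, Set.ncard_coe_finset]
  have h3 := markov (fun a : ∀ i, T.Pic (o i) => |T.orbitAverage c g (tr T o a x) - ∫ z, g z ∂(T.ν c)|)
    (fun a => abs_nonneg _) (t := ε / 2) S (fun a ha => by
      have h4 : ε ≤ |T.orbitAverage c f (tr T o a x) - ∫ z, f z ∂(T.ν c)| := (mem_filter.1 ha).2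
      have h5 := orbit_sub_le (tr_mem hx a) f g
      have h6 := T.int_sub_le g f
      rw [norm_sub_rev] at h6
      rw [dist_eq_norm] at hfg
      have h7 : T.orbitAverage c f (tr T o a x) - ∫ z, f z ∂(T.ν c) =
          (T.orbitAverage c f (tr T o a x) - T.orbitAverage c g (tr T o a x)) +
          (T.orbitAverage c g (tr T o a x) - ∫ z, g z ∂(T.ν c)) +
          ((∫ z, g z ∂(T.ν c)) - ∫ z, f z ∂(T.ν c)) := by ring
      rw [h7] at h4
      have h8 := abs_add_three (T.orbitAverage c f (tr T o a x) - T.orbitAverage c g (tr T o a x))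
        (T.orbitAverage c g (tr T o a x) - ∫ z, g z ∂(T.ν c))
        ((∫ z, g z ∂(T.ν c)) - ∫ z, f z ∂(T.ν c))
      linarith)
  have h4 : ε / 2 * (S.card : ℝ) ≤ ε / 2 * (A * (2 / ε) * D.size o *
      Fintype.card (∀ i, T.Pic (o i))) := by
    refine h3.trans (h1.trans (le_of_eq ?_))
    field_simp
  exact le_of_mul_le_mul_left h4 (by positivity)

/-- **The mixing conjecture for almost all twists, with power saving.** -/
theorem pmain3 (hc : ∀ i, D.IsCurve (c i)) (f : C(∀ i, T.X (c i), ℝ)) {ε : ℝ} (hε : 0 < ε) :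
    ∃ A : ℝ, 0 ≤ A ∧ ∀ o : T.Order, ∀ x ∈ Pts T c (fun _ => o), ∀ i₀ : Fin r,
      (Fintype.card (T.Pic o) : ℝ) * ((Set.ncard {a : Fin r → T.Pic o | a i₀ = 0 ∧
        ε ≤ |T.orbitAverage c f (tr T (fun _ => o) a x) - ∫ z, f z ∂(T.ν c)|} : ℕ) : ℝ) ≤
        A * (D.disc o : ℝ) ^ (-(D.η / 2)) * Fintype.card (Fin r → T.Pic o) := by
  classical
  obtain ⟨A, hA0, hA⟩ := pmain1 hc f hε
  refine ⟨A * r, by positivity, fun o x hx i₀ => ?_⟩
  have hsz : D.size (fun _ : Fin r => o) = r * (D.disc o : ℝ) ^ (-(D.η / 2)) := by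
    unfold DukePower.size
    rw [sum_const, card_univ, Fintype.card_fin, nsmul_eq_mul]
  have hA' := hA (fun _ => o) x hx
  rw [hsz, ← mul_assoc] at hA'
  refine le_trans ?_ hA'
  set Bad : Set (Fin r → T.Pic o) := {a : Fin r → T.Pic o |
    ε ≤ |T.orbitAverage c f (tr T (fun _ => o) a x) - ∫ z, f z ∂(T.ν c)|} with hBad
  have hinv : ∀ (u : T.Pic o) (a : Fin r → T.Pic o), a ∈ Bad → (a + fun _ => u) ∈ Bad := by
    intro u a ha
    obtain ⟨σ, hσ, rfl⟩ := T.art_surj o u
    have h1 : tr T (fun _ => o) (a + fun _ => T.art o σ) x = σ • tr T (fun _ => o) a x := by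
      funext i
      show T.act (c i) o (a i + T.art o σ) (x i) = σ • T.act (c i) o (a i) (x i)
      rw [T.art_act (c i) o σ _ hσ (act_mem (hx i) (a i)), act_add (hx i), add_comm]
    rw [hBad, Set.mem_ofPred_eq] at ha ⊢
    rw [h1, orbitAverage_smul]
    exact ha
  set S₀ : Finset (Fin r → T.Pic o) := univ.filter fun a => a i₀ = 0 ∧ a ∈ Bad with hS₀
  set S : Finset (Fin r → T.Pic o) := univ.filter fun a => a ∈ Bad with hS
  have h2 : {a : Fin r → T.Pic o | a i₀ = 0 ∧
      ε ≤ |T.orbitAverage c f (tr T (fun _ => o) a x) - ∫ z, f z ∂(T.ν c)|} = ↑S₀ := by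
    ext a
    rw [mem_coe, hS₀, mem_filter]
    exact (and_iff_right (mem_univ _)).symm
  have h3 : Bad = ↑S := by
    ext a
    rw [mem_coe, hS, mem_filter]
    exact (and_iff_right (mem_univ _)).symm
  have h4 : (Set.ncard Bad : ℕ) = S.card := by
    conv_lhs => rw [h3]
    exact Set.ncard_coe_finset _
  rw [h2, Set.ncard_coe_finset]
  have h5 : Fintype.card (T.Pic o) * S₀.card ≤ S.card := by
    rw [← card_univ, ← card_product]
    refine card_le_card_of_injOn (fun p => p.2 + fun _ => p.1) ?_ ?_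
    · rintro ⟨u, a⟩ hp
      rw [mem_coe, mem_product] at hp
      rw [mem_coe, hS, mem_filter]
      exact ⟨mem_univ _, hinv u a (mem_filter.1 hp.2).2.2⟩
    · rintro ⟨u, a⟩ hp ⟨u', a'⟩ hp' heq
      rw [mem_coe, mem_product] at hp hp'
      have h6 : (a + fun _ => u) = a' + fun _ => u' := heq
      have h7 := congrFun h6 i₀
      have h8 : a i₀ = 0 := (mem_filter.1 hp.2).2.1
      have h9 : a' i₀ = 0 := (mem_filter.1 hp'.2).2.1
      rw [Pi.add_apply, Pi.add_apply, h8, h9, zero_add, zero_add] at h7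
      have h10 : u = u' := h7
      subst h10
      rw [add_left_inj] at h6
      rw [h6]
  calc (Fintype.card (T.Pic o) : ℝ) * (S₀.card : ℝ) ≤ (S.card : ℝ) := by exact_mod_cast h5
    _ = ((Set.ncard Bad : ℕ) : ℝ) := by rw [h4]

/-- the discriminants tend to infinity -/
theorem pdisc_tendsto (D : DukePower T) {x : ℕ → ∀ i, T.P (c i)} {o : ℕ → Fin r → T.Order}
    (hx : ∀ n, x n ∈ Pts T c (o n)) (hs : ∀ i p, ∀ᶠ n in atTop, x n i ≠ p) (i : Fin r) :
    Tendsto (fun n => D.disc (o n i)) atTop atTop := by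
  rw [tendsto_atTop]
  intro B
  have hfin : (⋃ o ∈ {o | D.disc o ≤ B}, T.pts (c i) o).Finite :=
    (D.finite_disc B).biUnion fun o _ => T.pts_finite (c i) o
  have h : ∀ᶠ n in atTop, ∀ p ∈ (⋃ o ∈ {o | D.disc o ≤ B}, T.pts (c i) o), x n i ≠ p :=
    (Filter.eventually_all_finite hfin).2 fun p _ => hs i p
  filter_upwards [h] with n hn
  by_contra hlt
  push Not at hlt
  exact hn (x n i) (Set.mem_biUnion (show o n i ∈ {o | D.disc o ≤ B} from hlt.le) (hx n i)) rfl

/-- **The exceptional sets, with power saving.** -/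
theorem pmain2 (hr : 0 < r) {D : DukePower T} (hc : ∀ i, D.IsCurve (c i)) :
    ∃ E : (Fin r → T.Order) → Set (∀ i, T.P (c i)), (∀ o, E o ⊆ Pts T c o) ∧
      (∀ o, ((Set.ncard (E o) : ℕ) : ℝ) ≤ Real.sqrt (D.size o) * (Set.ncard (Pts T c o) : ℕ)) ∧
      ∀ (o : ℕ → Fin r → T.Order) (x : ℕ → ∀ i, T.P (c i)), (∀ n, x n ∈ Pts T c (o n)) →
        (∀ n, x n ∉ E (o n)) → (∀ i p, ∀ᶠ n in atTop, x n i ≠ p) → T.Equidistributed c x := by
  classical
  have hne : Nonempty C(∀ i, T.X (c i), ℝ) := ⟨0⟩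
  set f : ℕ → C(∀ i, T.X (c i), ℝ) := TopologicalSpace.denseSeq _ with hf
  have hdense : DenseRange f := TopologicalSpace.denseRange_denseSeq _
  set g : ℕ → (∀ i, T.P (c i)) → ℝ := fun j z => |T.orbitAverage c (f j) z - ∫ z, f j z ∂(T.ν c)| with hg
  choose A hA0 hA using fun (k j : ℕ) => pmain1 (D := D) hc (f j) (ε := 1 / ((k : ℝ) + 1)) (by positivity)
  set b : ℕ → ℝ := fun k => k + ∑ j ∈ range k, A k j with hb
  have hb0 : ∀ k, 0 ≤ b k := fun k => add_nonneg (Nat.cast_nonneg _) (sum_nonneg fun j _ => hA0 k j)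
  set κ : (Fin r → T.Order) → ℕ := fun o =>
    Nat.findGreatest (fun k => b k * Real.sqrt (D.size o) ≤ 1) ⌈1 / Real.sqrt (D.size o)⌉₊ with hκ
  have hκ1 : ∀ o k, 0 < D.size o → b k * Real.sqrt (D.size o) ≤ 1 → k ≤ κ o := by
    intro o k h0 hk
    refine Nat.le_findGreatest ?_ hk
    have h1 : 0 < Real.sqrt (D.size o) := Real.sqrt_pos.2 h0
    have h2 : (k : ℝ) ≤ b k := le_add_of_nonneg_right (sum_nonneg fun j _ => hA0 k j)
    have h3 : (k : ℝ) ≤ 1 / Real.sqrt (D.size o) := by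
      rw [le_div_iff₀ h1]
      exact (mul_le_mul_of_nonneg_right h2 h1.le).trans hk
    exact_mod_cast h3.trans (Nat.le_ceil _)
  have hκ2 : ∀ o, κ o ≠ 0 → b (κ o) * Real.sqrt (D.size o) ≤ 1 := by
    intro o h0
    exact Nat.findGreatest_of_ne_zero (P := fun k => b k * Real.sqrt (D.size o) ≤ 1) rfl h0
  set E : (Fin r → T.Order) → Set (∀ i, T.P (c i)) := fun o =>
    {z | z ∈ Pts T c o ∧ ∃ j < κ o, 1 / ((κ o : ℝ) + 1) ≤ g j z} with hE
  have hsmall : ∀ o, ((Set.ncard (E o) : ℕ) : ℝ) ≤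
      Real.sqrt (D.size o) * (Set.ncard (Pts T c o) : ℕ) := by
    intro o
    refine count_le (fun z hz => hz.1) fun x hx => ?_
    set k := κ o with hk
    have hp : (0 : ℝ) < Fintype.card (∀ i, T.Pic (o i)) := Pi_pos
    have hsq : 0 ≤ Real.sqrt (D.size o) := Real.sqrt_nonneg _
    set S : ℕ → Finset (∀ i, T.Pic (o i)) := fun j =>
      univ.filter fun a => 1 / ((k : ℝ) + 1) ≤ g j (tr T o a x) with hS
    have h1 : {a : ∀ i, T.Pic (o i) | tr T o a x ∈ E o} ⊆ ↑((range k).biUnion S) := by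
      rintro a ⟨-, j, hj, hja⟩
      rw [mem_coe, mem_biUnion]
      exact ⟨j, mem_range.2 hj, mem_filter.2 ⟨mem_univ _, hja⟩⟩
    have h2 := Set.ncard_le_ncard h1 (Finset.finite_toSet _)
    rw [Set.ncard_coe_finset] at h2
    have h3 := h2.trans card_biUnion_le
    have h4 : ∀ j ∈ range k, ((S j).card : ℝ) ≤
        A k j * D.size o * Fintype.card (∀ i, T.Pic (o i)) := by
      intro j _
      have h5 := hA k j o x hx
      have h6 : {a : ∀ i, T.Pic (o i) | 1 / ((k : ℝ) + 1) ≤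
          |T.orbitAverage c (f j) (tr T o a x) - ∫ z, f j z ∂(T.ν c)|} = ↑(S j) := by
        ext a
        rw [mem_coe, hS]
        simp only
        rw [mem_filter]
        exact (and_iff_right (mem_univ _)).symm
      rw [h6, Set.ncard_coe_finset] at h5
      exact h5
    have h5 : ((Set.ncard {a : ∀ i, T.Pic (o i) | tr T o a x ∈ E o} : ℕ) : ℝ) ≤
        ∑ j ∈ range k, ((S j).card : ℝ) := by exact_mod_cast h3
    refine h5.trans ((sum_le_sum h4).trans ?_)
    rw [← sum_mul, ← sum_mul]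
    refine mul_le_mul_of_nonneg_right ?_ hp.le
    rcases Nat.eq_zero_or_pos k with h0 | h0
    · rw [h0, range_zero, sum_empty, zero_mul]
      exact hsq
    · have h6 := hκ2 o (by rw [← hk]; omega)
      rw [← hk] at h6
      have h7 : ∑ j ∈ range k, A k j ≤ b k := le_add_of_nonneg_left (Nat.cast_nonneg _)
      calc (∑ j ∈ range k, A k j) * D.size o ≤ b k * D.size o :=
            mul_le_mul_of_nonneg_right h7 (size_nonneg D o)
        _ = b k * Real.sqrt (D.size o) * Real.sqrt (D.size o) := by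
            rw [mul_assoc, Real.mul_self_sqrt (size_nonneg D o)]
        _ ≤ 1 * Real.sqrt (D.size o) := mul_le_mul_of_nonneg_right h6 hsq
        _ = Real.sqrt (D.size o) := one_mul _
  refine ⟨E, fun o z hz => hz.1, hsmall, fun o x hx hxE hs => ?_⟩
  have hdisc := pdisc_tendsto D hx hs
  have hη := D.η_pos
  have hsz0 : Tendsto (fun n => D.size (o n)) atTop (nhds 0) := by
    have h1 : ∀ i : Fin r, Tendsto (fun n => (D.disc (o n i) : ℝ) ^ (-(D.η / 2))) atTop (nhds 0) :=
      fun i => (tendsto_rpow_neg_atTop (by positivity)).comp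
        (tendsto_natCast_atTop_atTop.comp (hdisc i))
    have h2 := tendsto_finsetSum univ fun i _ => h1 i
    rw [sum_const_zero] at h2
    exact h2
  have hszp : ∀ᶠ n in atTop, 0 < D.size (o n) := by
    filter_upwards [(tendsto_atTop.1 (hdisc ⟨0, hr⟩)) 1] with n hn
    refine lt_of_lt_of_le ?_ (le_size D (o n) ⟨0, hr⟩)
    exact Real.rpow_pos_of_pos (by exact_mod_cast hn) _
  have hκt : ∀ k : ℕ, ∀ᶠ n in atTop, k ≤ κ (o n) := by
    intro k
    have h1 : Tendsto (fun n => b k * Real.sqrt (D.size (o n))) atTop (nhds (b k * Real.sqrt 0)) :=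
      ((Real.continuous_sqrt.tendsto 0).comp hsz0).const_mul _
    rw [Real.sqrt_zero, mul_zero] at h1
    filter_upwards [hszp, h1.eventually_le_const (show (0 : ℝ) < 1 by norm_num)] with n h2 h3
    exact hκ1 (o n) k h2 h3
  have hfj : ∀ (j : ℕ) (ε : ℝ), 0 < ε → ∀ᶠ n in atTop, g j (x n) < ε := by
    intro j ε hε
    obtain ⟨k, hk⟩ := exists_nat_gt (1 / ε)
    filter_upwards [hκt (max k (j + 1))] with n hn
    have h1 : j < κ (o n) := lt_of_lt_of_le (Nat.lt_succ_self j) ((le_max_right _ _).trans hn)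
    have h2 : k ≤ κ (o n) := (le_max_left _ _).trans hn
    have h3 : ¬ 1 / ((κ (o n) : ℝ) + 1) ≤ g j (x n) := fun hcon => hxE n ⟨hx n, j, h1, hcon⟩
    push Not at h3
    refine h3.trans_le ?_
    have h4 : (k : ℝ) ≤ κ (o n) := by exact_mod_cast h2
    rw [div_le_iff₀ (by positivity)]
    rw [div_lt_iff₀ hε] at hk
    nlinarith
  intro φ
  rw [Metric.tendsto_atTop]
  intro ε hε
  obtain ⟨j, hj⟩ := hdense.exists_dist_lt φ (ε := ε / 3) (by positivity)
  obtain ⟨N, hN⟩ := Filter.eventually_atTop.1 (hfj j (ε / 3) (by positivity))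
  refine ⟨N, fun n hn => ?_⟩
  rw [Real.dist_eq]
  have h1 := hN n hn
  have h2 := orbit_sub_le (hx n) φ (f j)
  have h3 := T.int_sub_le (f j) φ
  rw [norm_sub_rev] at h3
  rw [dist_eq_norm] at hj
  have h4 : T.orbitAverage c φ (x n) - ∫ z, φ z ∂(T.ν c) =
      (T.orbitAverage c φ (x n) - T.orbitAverage c (f j) (x n)) +
      (T.orbitAverage c (f j) (x n) - ∫ z, f j z ∂(T.ν c)) +
      ((∫ z, f j z ∂(T.ν c)) - ∫ z, φ z ∂(T.ν c)) := by ring
  have h5 : |T.orbitAverage c (f j) (x n) - ∫ z, f j z ∂(T.ν c)| < ε / 3 := h1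
  show |T.orbitAverage c φ (x n) - ∫ z, φ z ∂(T.ν c)| < ε
  rw [h4]
  refine (abs_add_three _ _ _).trans_lt ?_
  linarith

end Pool.Agent.L0h11.MX
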